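import Pool.Agent.H.MP_676d90_ag.Defs

namespace Pool.Agent.H.MP_676d90_ag

open MvPolynomial

variable {n : ℕ}

/-- Restriction of a polynomial to the line `t ↦ v + t u`. -/
noncomputable def dirHom (v u : Fin (n + 1) → ℂ) :
    MvPolynomial (Fin (n + 1)) ℂ →ₐ[ℂ] Polynomial ℂ :=
  aeval (fun i => Polynomial.C (v i) + Polynomial.C (u i) * Polynomial.X)

lemma dirHom_eval_zero (v u : Fin (n + 1) → ℂ) (F : MvPolynomial (Fin (n + 1)) ℂ) :
    (dirHom v u F).eval 0 = aeval v F := by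
  have : ((Polynomial.aeval (0 : ℂ)).comp (dirHom v u)) = aeval (R := ℂ) v := by
    apply MvPolynomial.algHom_ext
    intro i
    simp [dirHom]
  have h := congrArg (fun f : MvPolynomial (Fin (n + 1)) ℂ →ₐ[ℂ] ℂ => f F) this
  simpa [Polynomial.aeval_def] using h

lemma X_dvd_dirHom {P : Projectivization ℂ (Fin (n + 1) → ℂ)} {F : MvPolynomial (Fin (n + 1)) ℂ}
    (hF : F ∈ pointIdeal P) {v : Fin (n + 1) → ℂ} (hv : v ∈ P.submodule)
    (u : Fin (n + 1) → ℂ) : Polynomial.X ∣ dirHom v u F := by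
  rw [Polynomial.X_dvd_iff, Polynomial.coeff_zero_eq_eval_zero, dirHom_eval_zero]
  exact hF v hv

lemma X_sq_dvd_dirHom {P : Projectivization ℂ (Fin (n + 1) → ℂ)}
    {F : MvPolynomial (Fin (n + 1)) ℂ}
    (hF : F ∈ pointIdeal P ^ 2) {v : Fin (n + 1) → ℂ} (hv : v ∈ P.submodule)
    (u : Fin (n + 1) → ℂ) : Polynomial.X ^ 2 ∣ dirHom v u F := by
  have h1 : pointIdeal P ≤ (Ideal.span {(Polynomial.X : Polynomial ℂ)}).comap
      (dirHom v u).toRingHom := by
    intro G hG
    rw [Ideal.mem_comap, Ideal.mem_span_singleton]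
    exact X_dvd_dirHom hG hv u
  have h2 : pointIdeal P ^ 2 ≤ ((Ideal.span {(Polynomial.X : Polynomial ℂ)}) ^ 2).comap
      (dirHom v u).toRingHom := by
    refine (Ideal.pow_right_mono h1 2).trans ?_
    exact Ideal.le_comap_pow _ 2
  have h3 := h2 hF
  rw [Ideal.mem_comap, Ideal.span_singleton_pow, Ideal.mem_span_singleton] at h3
  exact h3

lemma mem_symbolicSquare {Y : Finset (Projectivization ℂ (Fin (n + 1) → ℂ))}
    {F : MvPolynomial (Fin (n + 1)) ℂ} :
    F ∈ symbolicSquare Y ↔ ∀ P ∈ Y, F ∈ pointIdeal P ^ 2 := by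
  simp [symbolicSquare]

/-- The linear form with given coefficients. -/
noncomputable def lin (L : Module.Dual ℂ (Fin (n + 1) → ℂ)) : MvPolynomial (Fin (n + 1)) ℂ :=
  ∑ i, C (L (Pi.single i 1)) * X i

lemma dual_apply (L : Module.Dual ℂ (Fin (n + 1) → ℂ)) (v : Fin (n + 1) → ℂ) :
    L v = ∑ i, v i * L (Pi.single i 1) := by
  conv_lhs => rw [← Finset.univ_sum_single v]
  rw [map_sum]
  refine Finset.sum_congr rfl fun i _ => ?_
  have : Pi.single i (v i) = v i • (Pi.single i 1 : Fin (n + 1) → ℂ) := by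
    rw [← Pi.single_smul]; simp
  rw [this, map_smul, smul_eq_mul]

lemma aeval_lin (L : Module.Dual ℂ (Fin (n + 1) → ℂ)) (v : Fin (n + 1) → ℂ) :
    aeval v (lin L) = L v := by
  rw [lin, map_sum, dual_apply]
  refine Finset.sum_congr rfl fun i _ => ?_
  rw [map_mul, aeval_X, algHom_C, mul_comm]
  rfl

lemma dirHom_lin (L : Module.Dual ℂ (Fin (n + 1) → ℂ)) (v u : Fin (n + 1) → ℂ) :
    dirHom v u (lin L) = Polynomial.C (L v) + Polynomial.C (L u) * Polynomial.X := by
  rw [lin, map_sum, dual_apply L v, dual_apply L u, map_sum, map_sum, Finset.sum_mul,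
    ← Finset.sum_add_distrib]
  refine Finset.sum_congr rfl fun i _ => ?_
  rw [map_mul, dirHom, aeval_X, algHom_C]
  rw [Polynomial.C_mul, Polynomial.C_mul]
  change Polynomial.C _ * _ = _
  ring

lemma isHomogeneous_lin (L : Module.Dual ℂ (Fin (n + 1) → ℂ)) : (lin L).IsHomogeneous 1 := by
  refine MvPolynomial.IsHomogeneous.sum _ _ _ fun i _ => ?_
  have := (MvPolynomial.isHomogeneous_C (Fin (n + 1)) (L (Pi.single i 1))).mul
    (MvPolynomial.isHomogeneous_X ℂ i)
  simpa using this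

end Pool.Agent.H.MP_676d90_ag
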