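import Pool.Agent.H.MP_676d90_ag.Lower

namespace Pool.Agent.H.MP_676d90_ag

open MvPolynomial Module

section Binary

variable {A : Type*} [CommRing A] [Algebra ℂ A] (x y : A)

/-- the product of `y - c_k x` -/
noncomputable def TT (c : ℕ → ℂ) (m : ℕ) : A := ∏ k ∈ Finset.range m, (y - c k • x)

/-- forms in `x, y` of degree `e` whose exponent of `y` is less than `m`, times `z` -/
def VV (z : A) (m e : ℕ) : Submodule ℂ A :=
  Submodule.span ℂ {w | ∃ b, b < m ∧ b ≤ e ∧ w = x ^ (e - b) * y ^ b * z}

lemma TT_sub_mem (c : ℕ → ℂ) (m : ℕ) : TT x y c m - y ^ m ∈ VV x y 1 m m := by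
  induction m with
  | zero => simp [TT]
  | succ m ih =>
    have e : TT x y c (m + 1) - y ^ (m + 1) = (TT x y c m - y ^ m) * y
        - c m • ((TT x y c m - y ^ m) * x) - c m • (x * y ^ m) := by
      rw [TT, Finset.prod_range_succ, ← TT]
      simp only [smul_sub, mul_sub, sub_mul, Algebra.mul_smul_comm, pow_succ]
      rw [mul_comm (y ^ m) x]
      abel
    rw [e]
    have hy : ∀ v ∈ VV x y 1 m m, v * y ∈ VV x y 1 (m + 1) (m + 1) := by
      intro v hv
      induction hv using Submodule.span_induction with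
      | mem v hv =>
        obtain ⟨b, hb, hb', rfl⟩ := hv
        refine Submodule.subset_span ⟨b + 1, by omega, by omega, ?_⟩
        rw [Nat.add_sub_add_right, pow_succ]
        ring
      | zero => rw [zero_mul]; exact Submodule.zero_mem _
      | add u v _ _ hu hv => rw [add_mul]; exact Submodule.add_mem _ hu hv
      | smul a v _ hv => rw [smul_mul_assoc]; exact Submodule.smul_mem _ _ hv
    have hx : ∀ v ∈ VV x y 1 m m, v * x ∈ VV x y 1 (m + 1) (m + 1) := by
      intro v hv
      induction hv using Submodule.span_induction with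
      | mem v hv =>
        obtain ⟨b, hb, hb', rfl⟩ := hv
        refine Submodule.subset_span ⟨b, by omega, by omega, ?_⟩
        have : m + 1 - b = (m - b) + 1 := by omega
        rw [this, pow_succ]
        ring
      | zero => rw [zero_mul]; exact Submodule.zero_mem _
      | add u v _ _ hu hv => rw [add_mul]; exact Submodule.add_mem _ hu hv
      | smul a v _ hv => rw [smul_mul_assoc]; exact Submodule.smul_mem _ _ hv
    refine Submodule.sub_mem _ (Submodule.sub_mem _ (hy _ ih)
      (Submodule.smul_mem _ _ (hx _ ih))) (Submodule.smul_mem _ _ ?_)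
    refine Submodule.subset_span ⟨m, by omega, by omega, ?_⟩
    have : m + 1 - m = 1 := by omega
    rw [this]
    ring

lemma binary_reduction (c : ℕ → ℂ) (m : ℕ) (z : A) (I : Ideal A) (hI : TT x y c m * z ∈ I) :
    ∀ b a : ℕ, x ^ a * y ^ b * z ∈ VV x y z m (a + b) ⊔ I.restrictScalars ℂ := by
  intro b
  induction b using Nat.strong_induction_on with
  | _ b ih =>
    intro a
    by_cases hb : b < m
    · refine Submodule.mem_sup_left (Submodule.subset_span ⟨b, hb, by omega, ?_⟩)
      rw [Nat.add_sub_cancel]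
    · push Not at hb
      have e : x ^ a * y ^ b * z = x ^ a * y ^ (b - m) * (TT x y c m * z)
          - (x ^ a * y ^ (b - m) * z) * (TT x y c m - y ^ m) := by
        have : y ^ b = y ^ (b - m) * y ^ m := by rw [← pow_add]; congr 1; omega
        rw [this]
        ring
      rw [e]
      refine Submodule.sub_mem _ (Submodule.mem_sup_right (I.mul_mem_left _ hI)) ?_
      have key : ∀ v ∈ VV x y 1 m m, (x ^ a * y ^ (b - m) * z) * v
          ∈ VV x y z m (a + b) ⊔ I.restrictScalars ℂ := by
        intro v hv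
        induction hv using Submodule.span_induction with
        | mem v hv =>
          obtain ⟨b', hb', -, rfl⟩ := hv
          have h := ih (b - m + b') (by omega) (a + (m - b'))
          have e1 : a + (m - b') + (b - m + b') = a + b := by omega
          rw [e1] at h
          have e2 : x ^ a * y ^ (b - m) * z * (x ^ (m - b') * y ^ b' * 1)
              = x ^ (a + (m - b')) * y ^ (b - m + b') * z := by
            rw [pow_add, pow_add]; ring
          rw [e2]
          exact h
        | zero => rw [mul_zero]; exact Submodule.zero_mem _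
        | add u v _ _ hu hv => rw [mul_add]; exact Submodule.add_mem _ hu hv
        | smul t v _ hv => rw [mul_smul_comm]; exact Submodule.smul_mem _ _ hv
      exact key _ (TT_sub_mem x y c m)

end Binary


/-! ### Collinear points -/

section Collinear

variable {n : ℕ}

/-- the coordinates of the `i`-th collinear point `(1 : i : 0 : ... : 0)` -/
noncomputable def cvec (n : ℕ) (i : ℕ) : Fin (n + 1) → ℂ :=
  fun k => if (k : ℕ) = 0 then 1 else if (k : ℕ) = 1 then (i : ℂ) else 0

lemma cvec_ne (n i : ℕ) : cvec n i ≠ 0 := by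
  intro h
  have := congrFun h 0
  simp [cvec] at this

/-- the `i`-th collinear point -/
noncomputable def cpt (n i : ℕ) : Projectivization ℂ (Fin (n + 1) → ℂ) :=
  Projectivization.mk ℂ (cvec n i) (cvec_ne n i)

lemma cpt_injective (hn : 1 ≤ n) : Function.Injective (cpt n) := by
  intro i j h
  rw [cpt, cpt, Projectivization.mk_eq_mk_iff'] at h
  obtain ⟨a, ha⟩ := h
  have h0 := congrFun ha 0
  have h1 := congrFun ha ⟨1, by omega⟩
  simp only [cvec, Pi.smul_apply, Fin.val_zero, if_true, smul_eq_mul, mul_one] at h0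
  simp only [cvec, Pi.smul_apply, smul_eq_mul, one_ne_zero, if_false, if_true, h0, one_mul] at h1
  exact_mod_cast h1.symm

/-- `r` collinear points -/
noncomputable def cset (n r : ℕ) (hn : 1 ≤ n) : Finset (Projectivization ℂ (Fin (n + 1) → ℂ)) :=
  (Finset.range r).map ⟨cpt n, cpt_injective hn⟩

lemma card_cset (r : ℕ) (hn : 1 ≤ n) : (cset n r hn).card = r := by
  rw [cset, Finset.card_map, Finset.card_range]

lemma mem_pointIdeal_cpt {i : ℕ} {F : MvPolynomial (Fin (n + 1)) ℂ} :
    F ∈ pointIdeal (cpt n i) ↔ ∀ a : ℂ, aeval (a • cvec n i) F = 0 := by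
  rw [pointIdeal, mem_vanishingIdeal_iff, cpt, Projectivization.submodule_mk]
  constructor
  · intro h a
    exact h _ (Submodule.smul_mem _ _ (Submodule.mem_span_singleton_self _))
  · intro h v hv
    obtain ⟨a, rfl⟩ := Submodule.mem_span_singleton.1 hv
    exact h a

lemma X_mem {i : ℕ} (k : Fin (n + 1)) (hk : 2 ≤ (k : ℕ)) :
    (X k : MvPolynomial (Fin (n + 1)) ℂ) ∈ pointIdeal (cpt n i) := by
  rw [mem_pointIdeal_cpt]
  intro a
  rw [aeval_X, Pi.smul_apply, cvec, if_neg (by omega), if_neg (by omega), smul_zero]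

lemma lin_mem {i : ℕ} (k : Fin (n + 1)) (hk : (k : ℕ) = 1) :
    (X k - (i : ℂ) • X 0 : MvPolynomial (Fin (n + 1)) ℂ) ∈ pointIdeal (cpt n i) := by
  rw [mem_pointIdeal_cpt]
  intro a
  have h0 : cvec n i 0 = 1 := by simp [cvec]
  have h1 : cvec n i k = i := by simp [cvec, hk]
  rw [map_sub, map_smul, aeval_X, aeval_X, Pi.smul_apply, Pi.smul_apply, h0, h1]
  simp only [smul_eq_mul]
  ring

lemma TT_mem {i r : ℕ} (hi : i < r) (k : Fin (n + 1)) (hk : (k : ℕ) = 1) (c : ℕ → ℂ)
    (hc : ∀ j < r, c j = j) :
    (TT (X 0) (X k) c r : MvPolynomial (Fin (n + 1)) ℂ) ∈ pointIdeal (cpt n i) := by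
  rw [TT, ← Finset.mul_prod_erase _ _ (Finset.mem_range.2 hi)]
  rw [hc i hi]
  exact Ideal.mul_mem_right _ _ (lin_mem k hk)

lemma TT_two_mul {r : ℕ} (x y : MvPolynomial (Fin (n + 1)) ℂ) :
    TT x y (fun k => ((k % r : ℕ) : ℂ)) (2 * r) = (TT x y (fun k => ((k % r : ℕ) : ℂ)) r) ^ 2 := by
  rw [TT, two_mul, Finset.prod_range_add, pow_two, TT]
  congr 1
  refine Finset.prod_congr rfl fun k _ => ?_
  rw [Nat.add_mod_left]

lemma mem_cset {r : ℕ} (hn : 1 ≤ n) {P} : P ∈ cset n r hn ↔ ∃ i, i < r ∧ cpt n i = P := by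
  simp [cset]

/-- spanning set of forms of degree `d` modulo `I_Y^{(2)}` -/
def spanSet (n d : ℕ) (k : Fin (n + 1)) : Set (MvPolynomial (Fin (n + 1)) ℂ) :=
  {w | (∃ a b : ℕ, a + b = d ∧ w = X 0 ^ a * X k ^ b) ∨
    (∃ (a b : ℕ) (j : Fin (n + 1)), 2 ≤ (j : ℕ) ∧ a + b + 1 = d ∧ w = X 0 ^ a * X k ^ b * X j)}

lemma XX_mem {r : ℕ} (hn : 1 ≤ n) (j l : Fin (n + 1)) (hj : 2 ≤ (j : ℕ)) (hl : 2 ≤ (l : ℕ)) :
    (X j * X l : MvPolynomial (Fin (n + 1)) ℂ) ∈ symbolicSquare (cset n r hn) := by
  rw [mem_symbolicSquare]
  intro P hP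
  obtain ⟨i, -, rfl⟩ := (mem_cset hn).1 hP
  rw [pow_two]
  exact Ideal.mul_mem_mul (X_mem j hj) (X_mem l hl)

lemma homog_le_span {r : ℕ} (hn : 1 ≤ n) (k : Fin (n + 1)) (hk : (k : ℕ) = 1) (d : ℕ) :
    ∀ s : Fin (n + 1) →₀ ℕ, s.degree = d →
      (monomial s 1 : MvPolynomial (Fin (n + 1)) ℂ) ∈
        Submodule.span ℂ (spanSet n d k) ⊔ (symbolicSquare (cset n r hn)).restrictScalars ℂ := by
  induction d with
  | zero =>
    intro s hs
    rw [Finsupp.degree_eq_zero_iff] at hs
    rw [hs]
    refine Submodule.mem_sup_left (Submodule.subset_span (Or.inl ⟨0, 0, rfl, ?_⟩))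
    simp
  | succ d ih =>
    intro s hs
    have hne : s ≠ 0 := by
      rintro rfl
      simp at hs
    obtain ⟨i, hi⟩ := Finsupp.ne_iff.1 hne
    have hi' : 1 ≤ s i := Nat.one_le_iff_ne_zero.2 hi
    obtain ⟨t, ht⟩ : ∃ t, s = Finsupp.single i 1 + t := by
      refine ⟨s - Finsupp.single i 1, ?_⟩
      rw [add_tsub_cancel_of_le]
      exact Finsupp.single_le_iff.2 hi'
    have htd : t.degree = d := by
      rw [ht, map_add, Finsupp.degree_single] at hs
      omega
    have hm : (monomial s 1 : MvPolynomial (Fin (n + 1)) ℂ) = X i * monomial t 1 := by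
      rw [ht, X, monomial_mul, one_mul]
    rw [hm]
    have h1 := ih t htd
    have key : ∀ w ∈ Submodule.span ℂ (spanSet n d k) ⊔
        (symbolicSquare (cset n r hn)).restrictScalars ℂ,
        X i * w ∈ Submodule.span ℂ (spanSet n (d + 1) k) ⊔
          (symbolicSquare (cset n r hn)).restrictScalars ℂ := by
      intro w hw
      obtain ⟨u, hu, v, hv, rfl⟩ := Submodule.mem_sup.1 hw
      rw [mul_add]
      refine Submodule.add_mem _ ?_ (Submodule.mem_sup_right (Ideal.mul_mem_left _ _ hv))
      clear hw hv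
      induction hu using Submodule.span_induction with
      | mem u hu =>
        rcases hu with ⟨a, b, hab, rfl⟩ | ⟨a, b, j, hj, hab, rfl⟩
        · by_cases h0 : (i : ℕ) = 0
          · have : i = 0 := Fin.ext h0
            subst this
            refine Submodule.mem_sup_left (Submodule.subset_span (Or.inl ⟨a + 1, b, by omega, ?_⟩))
            rw [pow_succ]; ring
          · by_cases h1 : (i : ℕ) = 1
            · have : i = k := Fin.ext (h1.trans hk.symm)
              subst this
              refine Submodule.mem_sup_left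
                (Submodule.subset_span (Or.inl ⟨a, b + 1, by omega, ?_⟩))
              rw [pow_succ]; ring
            · refine Submodule.mem_sup_left
                (Submodule.subset_span (Or.inr ⟨a, b, i, by omega, by omega, ?_⟩))
              ring
        · by_cases h0 : (i : ℕ) = 0
          · have : i = 0 := Fin.ext h0
            subst this
            refine Submodule.mem_sup_left
              (Submodule.subset_span (Or.inr ⟨a + 1, b, j, hj, by omega, ?_⟩))
            rw [pow_succ]; ring
          · by_cases h1 : (i : ℕ) = 1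
            · have : i = k := Fin.ext (h1.trans hk.symm)
              subst this
              refine Submodule.mem_sup_left
                (Submodule.subset_span (Or.inr ⟨a, b + 1, j, hj, by omega, ?_⟩))
              rw [pow_succ]; ring
            · refine Submodule.mem_sup_right ?_
              have : X i * (X 0 ^ a * X k ^ b * X j)
                  = (X 0 ^ a * X k ^ b) * (X i * X j : MvPolynomial (Fin (n + 1)) ℂ) := by ring
              rw [this]
              exact Ideal.mul_mem_left _ _ (XX_mem hn i j (by omega) hj)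
      | zero => rw [mul_zero]; exact Submodule.zero_mem _
      | add u v _ _ hu hv => rw [mul_add]; exact Submodule.add_mem _ hu hv
      | smul t v _ hv => rw [mul_smul_comm]; exact Submodule.smul_mem _ _ hv
    exact key _ h1

end Collinear

end Pool.Agent.H.MP_676d90_ag
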