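import Pool.Agent.H.MP_676d90_ag.Generic

namespace Pool.Agent.H.MP_676d90_ag

open MvPolynomial Module

lemma dirHom_X {n : ℕ} (v u : Fin (n + 1) → ℂ) (k : Fin (n + 1)) :
    dirHom v u (X k) = Polynomial.C (v k) + Polynomial.C (u k) * Polynomial.X := by
  rw [dirHom, aeval_X]

/-- Derivative along a line. -/
lemma derivative_dirHom {n : ℕ} (v u : Fin (n + 1) → ℂ) (F : MvPolynomial (Fin (n + 1)) ℂ) :
    Polynomial.derivative (dirHom v u F)
      = dirHom v u (∑ i, C (u i) * pderiv i F) := by
  induction F using MvPolynomial.induction_on with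
  | C a =>
    have h1 : dirHom v u (C a) = Polynomial.C a := by rw [algHom_C]; rfl
    rw [h1]
    simp
  | add p q hp hq =>
    rw [map_add, map_add, hp, hq, ← map_add, ← Finset.sum_add_distrib]
    congr 1
    refine Finset.sum_congr rfl fun i _ => ?_
    rw [map_add, mul_add]
  | mul_X p k hp =>
    rw [map_mul, Polynomial.derivative_mul, hp, dirHom_X]
    have h1 : Polynomial.derivative (Polynomial.C (v k) + Polynomial.C (u k) * Polynomial.X)
        = Polynomial.C (u k) := by simp
    rw [h1]
    have h2 : (∑ i, C (u i) * pderiv i (p * X k) : MvPolynomial (Fin (n + 1)) ℂ)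
        = (∑ i, C (u i) * pderiv i p) * X k + C (u k) * p := by
      simp only [pderiv_mul, mul_add, Finset.sum_add_distrib, Finset.sum_mul]
      congr 1
      · refine Finset.sum_congr rfl fun i _ => ?_
        ring
      · rw [Finset.sum_eq_single k]
        · rw [pderiv_X_self, mul_one]
        · intro i _ hik
          rw [pderiv_X_of_ne (Ne.symm hik), mul_zero, mul_zero]
        · simp
    rw [h2, map_add, map_mul, map_mul, dirHom_X, algHom_C]
    rw [mul_comm (dirHom v u p) (Polynomial.C (u k))]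
    rfl

lemma coeff_one_dirHom {n : ℕ} (v u : Fin (n + 1) → ℂ) (F : MvPolynomial (Fin (n + 1)) ℂ) :
    (dirHom v u F).coeff 1 = aeval v (∑ i, C (u i) * pderiv i F) := by
  rw [← dirHom_eval_zero v u, ← derivative_dirHom, ← Polynomial.coeff_zero_eq_eval_zero,
    Polynomial.coeff_derivative]
  simp

section Coord

variable (b : Basis (Fin 4) ℂ (Fin 4 → ℂ))

/-- express a polynomial in the coordinates of the basis `b` -/
noncomputable def sub : MvPolynomial (Fin 4) ℂ →ₐ[ℂ] MvPolynomial (Fin 4) ℂ :=
  aeval (fun k => ∑ i, C (b i k) * X i)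

/-- substitute the coordinate functionals of `b` -/
noncomputable def pull : MvPolynomial (Fin 4) ℂ →ₐ[ℂ] MvPolynomial (Fin 4) ℂ :=
  aeval (fun i => lin (n := 3) (b.coord i))

lemma pull_X (i : Fin 4) : pull b (X i) = lin (n := 3) (b.coord i) := by
  rw [pull, aeval_X]

lemma pull_sub (F : MvPolynomial (Fin 4) ℂ) : pull b (sub b F) = F := by
  have h : (pull b).comp (sub b) = AlgHom.id ℂ _ := by
    apply MvPolynomial.algHom_ext
    intro k
    rw [AlgHom.comp_apply, sub, aeval_X, map_sum, AlgHom.id_apply]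
    have h1 : ∀ i, pull b (C (b i k) * X i) = C (b i k) * lin (n := 3) (b.coord i) := by
      intro i
      rw [map_mul, pull_X, algHom_C]
      rfl
    simp only [h1, lin, Finset.mul_sum]
    rw [Finset.sum_comm]
    have h2 : ∀ j : Fin 4, ∑ i : Fin 4, C (b i k) * (C (b.coord i (Pi.single j 1)) * X j)
        = (C (∑ i, b.coord i (Pi.single j 1) * b i k) * X j : MvPolynomial (Fin 4) ℂ) := by
      intro j
      rw [map_sum, Finset.sum_mul]
      refine Finset.sum_congr rfl fun i _ => ?_
      rw [map_mul]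
      ring
    rw [Finset.sum_congr rfl fun j _ => h2 j]
    have h3 : ∀ j : Fin 4, ∑ i, b.coord i (Pi.single j 1) * b i k
        = (Pi.single j 1 : Fin 4 → ℂ) k := by
      intro j
      have := congrFun (b.sum_repr (Pi.single j 1)) k
      rw [← this, Finset.sum_apply]
      rfl
    rw [Finset.sum_eq_single k]
    · rw [h3, Pi.single_eq_same, map_one, one_mul]
    · intro j _ hj
      rw [h3, Pi.single_eq_of_ne (Ne.symm hj), map_zero, zero_mul]
    · simp
  exact congrArg (fun f : MvPolynomial (Fin 4) ℂ →ₐ[ℂ] MvPolynomial (Fin 4) ℂ => f F) h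

lemma dirHom_pull (v u : Fin 4 → ℂ) (G : MvPolynomial (Fin 4) ℂ) :
    dirHom (n := 3) v u (pull b G) = dirHom (n := 3) (b.equivFun v) (b.equivFun u) G := by
  have h : (dirHom (n := 3) v u).comp (pull b)
      = dirHom (n := 3) (b.equivFun v) (b.equivFun u) := by
    apply MvPolynomial.algHom_ext
    intro i
    rw [AlgHom.comp_apply, pull_X, dirHom_lin, dirHom_X]
    rfl
  exact congrArg (fun f : MvPolynomial (Fin 4) ℂ →ₐ[ℂ] Polynomial ℂ => f G) h

lemma aeval_pull (v : Fin 4 → ℂ) (G : MvPolynomial (Fin 4) ℂ) :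
    aeval v (pull b G) = aeval (b.equivFun v) G := by
  have h : (aeval (R := ℂ) v).comp (pull b) = aeval (R := ℂ) (b.equivFun v) := by
    apply MvPolynomial.algHom_ext
    intro i
    rw [AlgHom.comp_apply, pull_X, aeval_lin (n := 3), aeval_X]
    rfl
  exact congrArg (fun f : MvPolynomial (Fin 4) ℂ →ₐ[ℂ] ℂ => f G) h

lemma dirHom_sub (v u : Fin 4 → ℂ) (F : MvPolynomial (Fin 4) ℂ) :
    dirHom (n := 3) (b.equivFun v) (b.equivFun u) (sub b F) = dirHom (n := 3) v u F := by
  rw [← dirHom_pull, pull_sub]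

lemma isHomogeneous_sub {d : ℕ} {F : MvPolynomial (Fin 4) ℂ} (hF : F.IsHomogeneous d) :
    (sub b F).IsHomogeneous d := by
  have := hF.aeval (fun k => ∑ i, C (b i k) * X i : Fin 4 → MvPolynomial (Fin 4) ℂ) (n := 1) ?_
  · rw [one_mul] at this
    exact this
  · intro k
    refine MvPolynomial.IsHomogeneous.sum _ _ _ fun i _ => ?_
    have := (MvPolynomial.isHomogeneous_C (Fin 4) (b i k)).mul (MvPolynomial.isHomogeneous_X ℂ i)
    simpa using this

lemma isHomogeneous_pull {d : ℕ} {F : MvPolynomial (Fin 4) ℂ} (hF : F.IsHomogeneous d) :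
    (pull b F).IsHomogeneous d := by
  have := hF.aeval (fun i => lin (n := 3) (b.coord i) : Fin 4 → MvPolynomial (Fin 4) ℂ)
    (n := 1) (fun i => isHomogeneous_lin _)
  rw [one_mul] at this
  exact this

end Coord

end Pool.Agent.H.MP_676d90_ag
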