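import Pool.Agent.H.MP_676d90_ag.Coord

namespace Pool.Agent.H.MP_676d90_ag

open MvPolynomial Module

lemma exists_basis (v : Fin 4 → ℂ) (hv : v ≠ 0) (S : Set (Fin 4 → ℂ))
    (hS : ⊤ ≤ Submodule.span ℂ S) :
    ∃ b : Basis (Fin 4) ℂ (Fin 4 → ℂ), b 0 = v ∧ ∀ i, i ≠ 0 → b i ∈ S := by
  classical
  have hs : LinearIndepOn ℂ id ({v} : Set (Fin 4 → ℂ)) := by
    rw [linearIndepOn_singleton_iff]
    exact hv
  have hst : ({v} : Set (Fin 4 → ℂ)) ⊆ {v} ∪ S := Set.subset_union_left
  have ht : ⊤ ≤ Submodule.span ℂ ({v} ∪ S) :=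
    hS.trans (Submodule.span_mono Set.subset_union_right)
  let b0 := Basis.extendLe hs hst ht
  have : Finite (hs.extend hst) := Module.Finite.finite_basis b0
  have : Fintype (hs.extend hst) := Fintype.ofFinite _
  have hcard : Fintype.card (hs.extend hst) = Fintype.card (Fin 4) := by
    rw [← finrank_eq_card_basis b0, finrank_fintype_fun_eq_card]
  have hvm : v ∈ hs.extend hst := hs.subset_extend hst rfl
  let e := Fintype.equivOfCardEq hcard
  let e' := e.trans (Equiv.swap (e ⟨v, hvm⟩) 0)
  have he' : e' ⟨v, hvm⟩ = 0 := Equiv.swap_apply_left _ _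
  have hb : ∀ i, b0.reindex e' i = (e'.symm i : Fin 4 → ℂ) := by
    intro i
    rw [Basis.reindex_apply]
    exact Basis.extendLe_apply_self hs hst ht _
  refine ⟨b0.reindex e', ?_, ?_⟩
  · rw [hb, ← he', Equiv.symm_apply_apply]
  · intro i hi
    rw [hb]
    have hmem : (e'.symm i : Fin 4 → ℂ) ∈ {v} ∪ S := hs.extend_subset hst (e'.symm i).2
    rcases hmem with h | h
    · exfalso
      apply hi
      have : e'.symm i = ⟨v, hvm⟩ := Subtype.ext h
      rw [← he', ← this, Equiv.apply_symm_apply]
    · exact h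

/-- a nonzero vector determines the point -/
lemma eq_of_mem {P Q : Projectivization ℂ (Fin (3 + 1) → ℂ)} {v : Fin 4 → ℂ} (hv : v ≠ 0)
    (hP : v ∈ P.submodule) (hQ : v ∈ Q.submodule) : P = Q := by
  rw [Projectivization.submodule_eq] at hP hQ
  obtain ⟨a, ha⟩ := Submodule.mem_span_singleton.1 hP
  obtain ⟨c, hc⟩ := Submodule.mem_span_singleton.1 hQ
  have ha0 : a ≠ 0 := by
    rintro rfl
    rw [zero_smul] at ha
    exact hv ha.symm
  rw [← Projectivization.mk_rep P, ← Projectivization.mk_rep Q, Projectivization.mk_eq_mk_iff']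
  refine ⟨a⁻¹ * c, ?_⟩
  rw [mul_smul, hc, ← ha, smul_smul, inv_mul_cancel₀ ha0, one_smul]

lemma aeval_single {d : ℕ} {G : MvPolynomial (Fin 4) ℂ} (hG : G.IsHomogeneous d) (i : Fin 4) :
    aeval (Pi.single i 1 : Fin 4 → ℂ) G = G.coeff (Finsupp.single i d) := by
  classical
  rw [aeval_def, eval₂_eq']
  by_cases h : Finsupp.single i d ∈ G.support
  · rw [Finset.sum_eq_single (Finsupp.single i d)]
    · have : ∏ j : Fin 4, (Pi.single i 1 : Fin 4 → ℂ) j ^ (Finsupp.single i d) j = 1 := by
        refine Finset.prod_eq_one fun j _ => ?_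
        by_cases hj : j = i
        · subst hj; simp
        · rw [Finsupp.single_eq_of_ne hj, pow_zero]
      rw [this, mul_one]
      rfl
    · intro s hs hne
      have hs' : s.degree = d := by
        have := hG (mem_support_iff.1 hs)
        rw [← this, Finsupp.degree_eq_weight_one]
        rfl
      have : ∃ j, j ≠ i ∧ s j ≠ 0 := by
        by_contra hcon
        push Not at hcon
        apply hne
        have hsi : s = Finsupp.single i (s i) := by
          ext j
          by_cases hj : j = i
          · subst hj; simp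
          · rw [Finsupp.single_eq_of_ne hj, hcon j hj]
        rw [hsi, Finsupp.degree_single] at hs'
        rw [hsi, hs']
      obtain ⟨j, hj, hsj⟩ := this
      rw [Finset.prod_eq_zero (Finset.mem_univ j), mul_zero]
      rw [Pi.single_eq_of_ne hj, zero_pow hsj]
    · intro h'; exact absurd h h'
  · rw [notMem_support_iff.1 h]
    refine Finset.sum_eq_zero fun s hs => ?_
    have hs' : s.degree = d := by
      have := hG (mem_support_iff.1 hs)
      rw [← this, Finsupp.degree_eq_weight_one]
      rfl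
    have : ∃ j, j ≠ i ∧ s j ≠ 0 := by
      by_contra hcon
      push Not at hcon
      apply h
      have hsi : s = Finsupp.single i (s i) := by
        ext j
        by_cases hj : j = i
        · subst hj; simp
        · rw [Finsupp.single_eq_of_ne hj, hcon j hj]
      rw [hsi, Finsupp.degree_single] at hs'
      rw [← hs', ← hsi]
      exact hs
    obtain ⟨j, hj, hsj⟩ := this
    rw [Finset.prod_eq_zero (Finset.mem_univ j), mul_zero]
    rw [Pi.single_eq_of_ne hj, zero_pow hsj]

lemma exists_single {t : Fin 4 →₀ ℕ} (h : t.degree = 1) : ∃ j, t = Finsupp.single j 1 := by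
  have h0 : ∃ j, t j ≠ 0 := by
    by_contra hcon
    push Not at hcon
    have : t = 0 := by ext j; exact hcon j
    rw [this] at h
    simp at h
  obtain ⟨j, hj⟩ := h0
  have hle : Finsupp.single j 1 ≤ t := Finsupp.single_le_iff.2 (Nat.one_le_iff_ne_zero.2 hj)
  have h1 : t - Finsupp.single j 1 + Finsupp.single j 1 = t := tsub_add_cancel_of_le hle
  refine ⟨j, ?_⟩
  have h2 := congrArg Finsupp.degree h1
  rw [map_add, Finsupp.degree_single, h] at h2
  have h3 : (t - Finsupp.single j 1).degree = 0 := by omega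
  rw [Finsupp.degree_eq_zero_iff] at h3
  rw [← h1, h3, zero_add]

lemma cubic_form {G : MvPolynomial (Fin 4) ℂ} (hG : G.IsHomogeneous 3)
    (h0 : pderiv 0 G = 0)
    (h1 : ∀ i : Fin 4, i ≠ 0 → ∀ j, aeval (Pi.single i 1 : Fin 4 → ℂ) (pderiv j G) = 0) :
    ∃ c : ℂ, G = C c * (X 1 * X 2 * X 3) := by
  classical
  have hm : (X 1 * X 2 * X 3 : MvPolynomial (Fin 4) ℂ)
      = monomial (Finsupp.single 1 1 + Finsupp.single 2 1 + Finsupp.single 3 1) 1 := by
    rw [X, X, X, monomial_mul, monomial_mul, one_mul, one_mul]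
  refine ⟨G.coeff (Finsupp.single 1 1 + Finsupp.single 2 1 + Finsupp.single 3 1), ?_⟩
  ext s
  rw [hm, C_mul_monomial, coeff_monomial, mul_one]
  split_ifs with hs
  · rw [hs]
  by_contra hne
  have hs' : s.degree = 3 := by
    have := hG hne
    rw [← this, Finsupp.degree_eq_weight_one]
    rfl
  have hsum : s 0 + s 1 + s 2 + s 3 = 3 := by
    have e := hs'
    rw [Finsupp.degree_eq_sum, Fin.sum_univ_four] at e
    exact e
  have hz : s 0 = 0 := by
    by_contra hz
    have hle : Finsupp.single 0 1 ≤ s := Finsupp.single_le_iff.2 (Nat.one_le_iff_ne_zero.2 hz)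
    have e1 : s - Finsupp.single 0 1 + Finsupp.single 0 1 = s := tsub_add_cancel_of_le hle
    have e2 := coeff_pderiv (i := 0) G (s - Finsupp.single 0 1)
    rw [h0, coeff_zero, e1] at e2
    rcases mul_eq_zero.1 e2.symm with h | h
    · exact hne h
    · exact Nat.cast_add_one_ne_zero _ h
  have hle1 : ∀ i : Fin 4, i ≠ 0 → s i ≤ 1 := by
    intro i hi
    by_contra hcon
    push Not at hcon
    have hle : Finsupp.single i 2 ≤ s := Finsupp.single_le_iff.2 hcon
    have e1 : s - Finsupp.single i 2 + Finsupp.single i 2 = s := tsub_add_cancel_of_le hle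
    have e2 := congrArg Finsupp.degree e1
    rw [map_add, Finsupp.degree_single, hs'] at e2
    obtain ⟨j, hj⟩ := exists_single (t := s - Finsupp.single i 2) (by omega)
    rw [hj, add_comm] at e1
    have e3 := coeff_pderiv (i := j) G (Finsupp.single i 2)
    rw [e1, ← aeval_single hG.pderiv i, h1 i hi j] at e3
    rcases mul_eq_zero.1 e3.symm with h | h
    · exact hne h
    · exact Nat.cast_add_one_ne_zero _ h
  have g1 := hle1 1 (by decide)
  have g2 := hle1 2 (by decide)
  have g3 := hle1 3 (by decide)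
  apply hs
  ext k
  simp only [Finsupp.add_apply, Finsupp.single_apply]
  fin_cases k
  · simp [hz]
  · simp; omega
  · simp; omega
  · simp; omega

end Pool.Agent.H.MP_676d90_ag
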