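import Mathlib

/-!
# Double points in projective space: definitions
-/

namespace Pool.Agent.H.MP_676d90_ag

open MvPolynomial

/-- The homogeneous prime ideal of a point `P` of `ℙ^n`: the polynomials that vanish on the line
of `ℂ^(n+1)` that `P` is. -/
noncomputable def pointIdeal {n : ℕ} (P : Projectivization ℂ (Fin (n + 1) → ℂ)) :
    Ideal (MvPolynomial (Fin (n + 1)) ℂ) :=
  vanishingIdeal ℂ (P.submodule : Set (Fin (n + 1) → ℂ))

/-- The ideal `I_Y^{(2)}` of the double points supported on `Y`: the intersection of the squares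
of the prime ideals of the points of `Y`. -/
noncomputable def symbolicSquare {n : ℕ} (Y : Finset (Projectivization ℂ (Fin (n + 1) → ℂ))) :
    Ideal (MvPolynomial (Fin (n + 1)) ℂ) :=
  ⨅ P ∈ Y, pointIdeal P ^ 2

/-- The Hilbert function `d ↦ dim [R/I]_d` of `R/I`, where `R = ℂ[x_0,...,x_n]`. -/
noncomputable def hilbert {n : ℕ} (I : Ideal (MvPolynomial (Fin (n + 1)) ℂ)) (d : ℕ) : ℕ :=
  Module.finrank ℂ (homogeneousSubmodule (Fin (n + 1)) ℂ d ⧸
    (I.restrictScalars ℂ).comap (homogeneousSubmodule (Fin (n + 1)) ℂ d).subtype)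

end Pool.Agent.H.MP_676d90_ag
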