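import Pool.Agent.H.MP_676d90_ag.Basic

namespace Pool.Agent.H.MP_676d90_ag

open MvPolynomial Module

/-- The dimension of the space of forms of degree `d`. -/
lemma finrank_homog (n d : ℕ) :
    finrank ℂ (homogeneousSubmodule (Fin (n + 1)) ℂ d) = (n + d).choose d := by
  classical
  rw [homogeneousSubmodule_eq_finsupp_supported]
  rw [(AddMonoidAlgebra.supportedEquivFinsupp (R := ℂ) (S := ℂ)
    {s : Fin (n + 1) →₀ ℕ | s.degree = d}).finrank_eq]
  have hset : {s : Fin (n + 1) →₀ ℕ | s.degree = d}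
      = ((Finset.univ : Finset (Fin (n + 1))).finsuppAntidiag d : Set (Fin (n + 1) →₀ ℕ)) := by
    ext s
    simp [Finset.mem_finsuppAntidiag, Finsupp.degree_eq_sum]
  rw [hset]
  rw [Module.finrank_finsupp_self]
  simp only [Finset.coe_sort_coe, Fintype.card_coe]
  rw [Finset.card_finsuppAntidiag_nat_eq_choose, Finset.card_univ, Fintype.card_fin]
  congr 1
  omega

instance finite_homog (n d : ℕ) : Module.Finite ℂ (homogeneousSubmodule (Fin (n + 1)) ℂ d) :=
  Module.Finite.iff_fg.2 (homogeneousSubmodule_fg _ _ d)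

end Pool.Agent.H.MP_676d90_ag
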