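import Pool.Agent.H.MP_676d90_ag.Seven

namespace Pool.Agent.H.MP_676d90_ag

open MvPolynomial Module

lemma prod_mem_sq {m : ℕ} (f : Fin m → Fin 4 → ℤ) (v : Fin 4 → ℤ) (h : v ≠ 0)
    (hf : ∃ i j, i ≠ j ∧ ∑ k, f i k * v k = 0 ∧ ∑ k, f j k * v k = 0) :
    ∏ i, ilin (f i) ∈ pointIdeal (ipt v h) ^ 2 := by
  obtain ⟨i, j, hij, hi, hj⟩ := hf
  rw [← Finset.mul_prod_erase _ _ (Finset.mem_univ i),
    ← Finset.mul_prod_erase _ _ (Finset.mem_erase.2 ⟨hij.symm, Finset.mem_univ j⟩), ← mul_assoc,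
    pow_two]
  exact Ideal.mul_mem_right _ _ (Ideal.mul_mem_mul (ilin_mem _ _ h hi) (ilin_mem _ _ h hj))

lemma prod_mem_symbolicSquare {m : ℕ} (D : SevenData) (f : Fin m → Fin 4 → ℤ)
    (hf : ∀ t, ∃ i j, i ≠ j ∧ ∑ k, f i k * D.v t k = 0 ∧ ∑ k, f j k * D.v t k = 0) :
    ∏ i, ilin (f i) ∈ symbolicSquare D.Y := by
  rw [mem_symbolicSquare]
  intro P hP
  obtain ⟨t, rfl⟩ := D.mem_Y.1 hP
  exact prod_mem_sq f (D.v t) (D.v_ne t) (hf t)

lemma prod_homog {m : ℕ} (f : Fin m → Fin 4 → ℤ) : (∏ i, ilin (f i)).IsHomogeneous m := by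
  have := MvPolynomial.IsHomogeneous.prod (Finset.univ : Finset (Fin m)) (fun i => ilin (f i))
    (fun _ => 1) (fun i _ => isHomogeneous_ilin (f i))
  simpa using this

/-- the cubic `x₁x₂x₃` -/
def cub : Fin 3 → Fin 4 → ℤ := ![![0, 1, 0, 0], ![0, 0, 1, 0], ![0, 0, 0, 1]]

lemma data1_bound : hilbert (symbolicSquare data1.Y) 3 ≤ 19 := by
  have h1 : 1 ≤ finrank ℂ (piece (symbolicSquare data1.Y) 3) := by
    refine le_finrank_piece (M := ℂ) (finrank_self ℂ)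
      (LinearMap.toSpanSingleton ℂ _ (∏ i, ilin (cub i))) ?_ ?_ ?_
    · intro c
      exact Submodule.smul_mem (homogeneousSubmodule (Fin 4) ℂ 3) c (prod_homog cub)
    · intro c
      exact Submodule.smul_mem ((symbolicSquare data1.Y).restrictScalars ℂ) c
        (prod_mem_symbolicSquare data1 cub (by decide))
    · intro c hc
      have := congrArg (aeval (ivec ![0, 1, 1, 1])) hc
      rw [LinearMap.toSpanSingleton_apply, map_smul, map_prod, map_zero] at this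
      simp only [aeval_ilin] at this
      have h : ∏ i : Fin 3, ((∑ k, cub i k * (![0, 1, 1, 1] : Fin 4 → ℤ) k : ℤ) : ℂ) = 1 := by
        rw [← Int.cast_prod]
        have : ∏ i : Fin 3, (∑ k, cub i k * (![0, 1, 1, 1] : Fin 4 → ℤ) k : ℤ) = 1 := by decide
        rw [this, Int.cast_one]
      rw [h, smul_eq_mul, mul_one] at this
      exact this
  have h2 := hilbert_add (symbolicSquare data1.Y) 3
  have h3 : (3 + 3).choose 3 = 20 := by decide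
  omega

/-- eleven quartics -/
def quart : Fin 11 → Fin 4 → Fin 4 → ℤ :=
  ![![![0, 0, 0, 1], ![0, 0, 0, 1], ![1, 0, 0, 0], ![1, 0, 0, 0]],
    ![![0, 0, 0, 1], ![0, 0, 0, 1], ![0, 1, 0, 0], ![0, 1, 0, 0]],
    ![![0, 0, 0, 1], ![0, 0, 0, 1], ![0, 0, 1, 0], ![0, 0, 1, 0]],
    ![![0, 0, 0, 1], ![0, 0, 0, 1], ![1, 0, 0, 0], ![0, 1, 0, 0]],
    ![![0, 0, 0, 1], ![0, 0, 0, 1], ![1, 0, 0, 0], ![0, 0, 1, 0]],
    ![![0, 0, 0, 1], ![0, 0, 0, 1], ![0, 1, 0, 0], ![0, 0, 1, 0]],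
    ![![0, 0, 0, 1], ![1, 0, 0, 0], ![0, 1, 0, 0], ![1, 1, 0, 0]],
    ![![0, 0, 0, 1], ![1, 0, 0, 0], ![0, 0, 1, 0], ![1, 0, 1, 0]],
    ![![0, 0, 0, 1], ![0, 1, 0, 0], ![0, 0, 1, 0], ![0, 1, 1, 0]],
    ![![0, 0, 0, 1], ![1, 0, 0, 0], ![0, 1, 0, 0], ![0, 0, 1, 0]],
    ![![1, 0, 0, 0], ![0, 1, 0, 0], ![0, 0, 1, 0], ![1, 1, 1, 0]]]

/-- test vectors -/
def tv : Fin 11 → Fin 4 → ℤ :=
  ![![1, 0, 0, 1], ![0, 1, 0, 1], ![0, 0, 1, 1], ![1, 1, 0, 1], ![1, 0, 1, 1], ![0, 1, 1, 1],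
    ![1, 1, 0, 2], ![1, 0, 1, 2], ![0, 1, 1, 2], ![1, 1, 1, 1], ![1, 1, 1, 0]]

/-- evaluation matrix -/
def em (i j : Fin 11) : ℤ := ∏ t : Fin 4, ∑ k, quart i t k * tv j k

lemma quart_indep (c : Fin 11 → ℂ) (h : ∑ i, c i • ∏ t, ilin (quart i t) = 0) : c = 0 := by
  have hev : ∀ j, ∑ i, c i * ((em i j : ℤ) : ℂ) = 0 := by
    intro j
    have := congrArg (aeval (ivec (tv j))) h
    rw [map_sum, map_zero] at this
    rw [← this]
    refine Finset.sum_congr rfl fun i _ => ?_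
    rw [map_smul, map_prod, smul_eq_mul, em, Int.cast_prod]
    simp only [aeval_ilin]
  have hem : ∀ i j, em i j = (![![1, 0, 0, 1, 1, 0, 4, 4, 0, 1, 0], ![0, 1, 0, 1, 0, 1, 4, 0, 4, 1, 0],
    ![0, 0, 1, 0, 1, 1, 0, 4, 4, 1, 0], ![0, 0, 0, 1, 0, 0, 4, 0, 0, 1, 0],
    ![0, 0, 0, 0, 1, 0, 0, 4, 0, 1, 0], ![0, 0, 0, 0, 0, 1, 0, 0, 4, 1, 0],
    ![0, 0, 0, 2, 0, 0, 4, 0, 0, 2, 0], ![0, 0, 0, 0, 2, 0, 0, 4, 0, 2, 0],
    ![0, 0, 0, 0, 0, 2, 0, 0, 4, 2, 0], ![0, 0, 0, 0, 0, 0, 0, 0, 0, 1, 0],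
    ![0, 0, 0, 0, 0, 0, 0, 0, 0, 3, 3]] : Fin 11 → Fin 11 → ℤ) i j := by decide
  simp only [hem] at hev
  have e0 := hev 0
  have e1 := hev 1
  have e2 := hev 2
  have e3 := hev 3
  have e4 := hev 4
  have e5 := hev 5
  have e6 := hev 6
  have e7 := hev 7
  have e8 := hev 8
  have e9 := hev 9
  have e10 := hev 10
  simp [Fin.sum_univ_succ] at e0 e1 e2 e3 e4 e5 e6 e7 e8 e9 e10
  have h0 : c 0 = 0 := by linear_combination e0
  have h1 : c 1 = 0 := by linear_combination e1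
  have h2 : c 2 = 0 := by linear_combination e2
  have h6 : c 6 = 0 := by linear_combination e3 - e6 / 4
  have h3 : c 3 = 0 := by linear_combination e6 / 2 - e3 - e0 - e1
  have h7 : c 7 = 0 := by linear_combination e4 - e7 / 4
  have h4 : c 4 = 0 := by linear_combination e7 / 2 - e4 - e0 - e2
  have h8 : c 8 = 0 := by linear_combination e5 - e8 / 4
  have h5 : c 5 = 0 := by linear_combination e8 / 2 - e5 - e1 - e2
  have h10 : c 10 = 0 := e10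
  have h9 : c 9 = 0 := by
    linear_combination e9 - h0 - h1 - h2 - h3 - h4 - h5 - 2 * h6 - 2 * h7 - 2 * h8 - 3 * h10
  funext i
  fin_cases i <;> assumption

lemma data2_bound : hilbert (symbolicSquare data2.Y) 4 ≤ 24 := by
  have h1 : 11 ≤ finrank ℂ (piece (symbolicSquare data2.Y) 4) := by
    let Φ : (Fin 11 → ℂ) →ₗ[ℂ] MvPolynomial (Fin 4) ℂ :=
      ∑ i : Fin 11, (LinearMap.proj i).smulRight (∏ t, ilin (quart i t))
    have hΦ : ∀ c, Φ c = ∑ i, c i • ∏ t, ilin (quart i t) := by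
      intro c
      simp [Φ, LinearMap.sum_apply]
    refine le_finrank_piece (M := Fin 11 → ℂ) ?_ Φ ?_ ?_ ?_
    · rw [finrank_fintype_fun_eq_card, Fintype.card_fin]
    · intro c
      rw [hΦ]
      exact Submodule.sum_mem (homogeneousSubmodule (Fin 4) ℂ 4)
        fun i _ => Submodule.smul_mem _ _ (prod_homog (quart i))
    · intro c
      rw [hΦ]
      refine Submodule.sum_mem ((symbolicSquare data2.Y).restrictScalars ℂ)
        fun i _ => Submodule.smul_mem _ _ ?_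
      refine prod_mem_symbolicSquare data2 (quart i) ?_
      revert i
      decide
    · intro c hc
      rw [hΦ] at hc
      exact quart_indep c hc
  have h2 := hilbert_add (symbolicSquare data2.Y) 4
  have h3 : (3 + 4).choose 4 = 35 := by decide
  omega

end Pool.Agent.H.MP_676d90_ag
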