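import Pool.Agent.H.MP_676d90_ag.Basic

namespace Pool.Agent.H.MP_676d90_ag

open MvPolynomial Module

lemma exists_dual_family {V : Type*} [AddCommGroup V] [Module ℂ V] {m : ℕ} {w : Fin m → V}
    (hw : LinearIndependent ℂ w) :
    ∃ M : Fin m → Dual ℂ V, ∀ i j, M i (w j) = if i = j then 1 else 0 := by
  have h : ∀ i, ∃ g : Dual ℂ V, g ∘ₗ (Submodule.span ℂ (Set.range w)).subtype
      = (Finsupp.lapply i : (Fin m →₀ ℂ) →ₗ[ℂ] ℂ) ∘ₗ hw.repr := fun i =>
    LinearMap.exists_extend _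
  choose M hM using h
  refine ⟨M, fun i j => ?_⟩
  have h1 := LinearMap.congr_fun (hM i) ⟨w j, Submodule.subset_span ⟨j, rfl⟩⟩
  have h2 : hw.repr ⟨w j, Submodule.subset_span ⟨j, rfl⟩⟩ = Finsupp.single j 1 :=
    hw.repr_eq_single j _ rfl
  simp only [LinearMap.comp_apply, Submodule.subtype_apply] at h1
  rw [h1, h2, Finsupp.lapply_apply, Finsupp.single_apply]
  simp only [eq_comm]

lemma exists_indep_in {V : Type*} [AddCommGroup V] [Module ℂ V] [FiniteDimensional ℂ V] {m : ℕ}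
    (U : Submodule ℂ V) (h : m ≤ finrank ℂ U) :
    ∃ w : Fin m → V, LinearIndependent ℂ w ∧ ∀ j, w j ∈ U := by
  refine ⟨fun j => (finBasis ℂ U (Fin.castLE h j) : V), ?_, fun j => (finBasis ℂ U _).2⟩
  have h1 : LinearIndependent ℂ (fun j : Fin m => finBasis ℂ U (Fin.castLE h j)) :=
    (finBasis ℂ U).linearIndependent.comp _ (Fin.castLE_injective h)
  exact h1.map' U.subtype (Submodule.ker_subtype U)

lemma finrank_ker_inf (V : Type*) [AddCommGroup V] [Module ℂ V] [FiniteDimensional ℂ V]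
    (L0 L1 : Dual ℂ V) : finrank ℂ V ≤ finrank ℂ (LinearMap.ker L0 ⊓ LinearMap.ker L1 : Submodule ℂ V) + 2 := by
  have h := LinearMap.finrank_range_add_finrank_ker (L0.prod L1)
  have h2 : finrank ℂ (LinearMap.range (L0.prod L1)) ≤ 2 := by
    have := Submodule.finrank_le (LinearMap.range (L0.prod L1))
    rw [finrank_prod, finrank_self] at this
    exact this
  rw [LinearMap.ker_prod] at h
  omega

lemma exists_forms {n : ℕ} (hn : 1 ≤ n) (Y : Finset (Projectivization ℂ (Fin (n + 1) → ℂ))) :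
    ∃ (L0 L1 : Dual ℂ (Fin (n + 1) → ℂ)) (u1 : Fin (n + 1) → ℂ)
      (w : Fin (n - 1) → (Fin (n + 1) → ℂ)) (M : Fin (n - 1) → Dual ℂ (Fin (n + 1) → ℂ)),
      (∀ P ∈ Y, L0 P.rep ≠ 0) ∧
      (∀ P ∈ Y, ∀ Q ∈ Y, P ≠ Q → L0 Q.rep * L1 P.rep ≠ L0 P.rep * L1 Q.rep) ∧
      (L0 u1 = 0 ∧ L1 u1 = 1) ∧
      (∀ j, L0 (w j) = 0 ∧ L1 (w j) = 0) ∧
      (∀ i j, M i (w j) = if i = j then 1 else 0) := by
  classical
  obtain ⟨L0, hL0⟩ := Module.exists_dual_forall_apply_ne_zero (K := ℂ)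
    (fun P : Y => (P : Projectivization ℂ (Fin (n + 1) → ℂ)).rep)
    (fun P => Projectivization.rep_nonzero _)
  have hker : 1 ≤ finrank ℂ (LinearMap.ker L0) := by
    have h := LinearMap.finrank_range_add_finrank_ker L0
    have h2 : finrank ℂ (LinearMap.range L0) ≤ 1 := by
      have := Submodule.finrank_le (LinearMap.range L0)
      rwa [finrank_self] at this
    rw [finrank_fintype_fun_eq_card, Fintype.card_fin] at h
    omega
  obtain ⟨w0, hw0, hw0'⟩ := exists_indep_in (m := 1) (LinearMap.ker L0) hker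
  have hw0ne : w0 0 ≠ 0 := hw0.ne_zero 0
  have hw0k : L0 (w0 0) = 0 := hw0' 0
  let ι := Option {p : Y × Y // p.1 ≠ p.2}
  let vec : ι → (Fin (n + 1) → ℂ) := fun o => match o with
    | none => w0 0
    | some p => (L0 p.1.2.1.rep) • p.1.1.1.rep - (L0 p.1.1.1.rep) • p.1.2.1.rep
  have hvec : ∀ o, vec o ≠ 0 := by
    rintro (_ | ⟨⟨P, Q⟩, hPQ⟩)
    · exact hw0ne
    · intro h
      have h1 : (L0 Q.1.rep) • P.1.rep = (L0 P.1.rep) • Q.1.rep := sub_eq_zero.1 h
      apply hPQ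
      apply Subtype.ext
      rw [← Projectivization.mk_rep P.1, ← Projectivization.mk_rep Q.1]
      rw [Projectivization.mk_eq_mk_iff']
      refine ⟨(L0 Q.1.rep)⁻¹ * L0 P.1.rep, ?_⟩
      rw [mul_smul, ← h1, smul_smul, inv_mul_cancel₀ (hL0 Q), one_smul]
  obtain ⟨L1, hL1⟩ := Module.exists_dual_forall_apply_ne_zero (K := ℂ) vec hvec
  have hU : n - 1 ≤ finrank ℂ (LinearMap.ker L0 ⊓ LinearMap.ker L1 : Submodule ℂ (Fin (n + 1) → ℂ)) := by
    have := finrank_ker_inf _ L0 L1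
    rw [finrank_fintype_fun_eq_card, Fintype.card_fin] at this
    omega
  obtain ⟨w, hw, hw'⟩ := exists_indep_in _ hU
  obtain ⟨M, hM⟩ := exists_dual_family hw
  refine ⟨L0, L1, (L1 (w0 0))⁻¹ • w0 0, w, M, fun P hP => hL0 ⟨P, hP⟩, ?_, ?_, ?_, hM⟩
  · intro P hP Q hQ hPQ h
    apply hL1 (some ⟨(⟨P, hP⟩, ⟨Q, hQ⟩), fun h => hPQ (congrArg Subtype.val h)⟩)
    change L1 ((L0 Q.rep) • P.rep - (L0 P.rep) • Q.rep) = 0
    rw [map_sub, map_smul, map_smul, smul_eq_mul, smul_eq_mul, h, sub_self]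
  · refine ⟨by rw [map_smul, hw0k, smul_zero], ?_⟩
    rw [map_smul, smul_eq_mul, inv_mul_cancel₀ (hL1 none)]
  · intro j
    exact ⟨(hw' j).1, (hw' j).2⟩

/-- the polynomial with given coefficients -/
noncomputable def pol {N : ℕ} (f : Fin N → ℂ) : Polynomial ℂ :=
  ∑ b : Fin N, Polynomial.C (f b) * Polynomial.X ^ (b : ℕ)

lemma coeff_pol {N : ℕ} (f : Fin N → ℂ) (b : Fin N) : (pol f).coeff b = f b := by
  simp only [pol, Polynomial.finsetSum_coeff, Polynomial.coeff_C_mul_X_pow]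
  rw [Finset.sum_eq_single b]
  · simp
  · intro c _ hc
    rw [if_neg]
    intro h
    exact hc (Fin.ext h.symm)
  · simp

lemma degree_pol {N : ℕ} (f : Fin N → ℂ) : (pol f).degree < N := by
  refine (Polynomial.degree_sum_le _ _).trans_lt ?_
  rw [Finset.sup_lt_iff (by exact_mod_cast WithBot.bot_lt_coe N)]
  intro b _
  exact (Polynomial.degree_C_mul_X_pow_le _ _).trans_lt (by exact_mod_cast b.2)

lemma pol_eq_zero {N : ℕ} {f : Fin N → ℂ} (h : pol f = 0) : f = 0 := by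
  funext b
  rw [← coeff_pol f b, h]
  simp

lemma pol_zero_of_eval {N r : ℕ} (hN : N ≤ r) (f : Fin N → ℂ) (s : Finset ℂ) (hs : s.card = r)
    (h : ∀ t ∈ s, (pol f).eval t = 0) : f = 0 := by
  apply pol_eq_zero
  refine Polynomial.eq_zero_of_degree_lt_of_eval_finset_eq_zero s ?_ h
  exact (degree_pol f).trans_le (by rw [hs]; exact_mod_cast hN)

lemma pol_zero_of_sq_dvd {N r : ℕ} (hN : N ≤ 2 * r) (f : Fin N → ℂ) (s : Finset ℂ)
    (hs : s.card = r)
    (h : ∀ t ∈ s, (Polynomial.X - Polynomial.C t) ^ 2 ∣ pol f) : f = 0 := by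
  apply pol_eq_zero
  by_contra hne
  have h1 : (∏ t ∈ s, (Polynomial.X - Polynomial.C t) ^ 2) ∣ pol f := by
    refine Finset.prod_dvd_of_coprime ?_ h
    intro a _ b _ hab
    exact (Polynomial.isCoprime_X_sub_C_of_isUnit_sub (sub_ne_zero.2 hab).isUnit).pow
  have h2 := Polynomial.degree_le_of_dvd h1 hne
  have h3 : (∏ t ∈ s, (Polynomial.X - Polynomial.C t) ^ 2).degree = ((2 * r : ℕ) : WithBot ℕ) := by
    rw [Polynomial.degree_prod]
    simp only [Polynomial.degree_pow, Polynomial.degree_X_sub_C, Finset.sum_const, hs]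
    norm_num
    ring
  rw [h3] at h2
  have h4 := h2.trans_lt (degree_pol f)
  have h5 : 2 * r < N := by exact_mod_cast h4
  omega

/-- the parametrisation of forms of degree `d` -/
noncomputable def Phi {n m : ℕ} (d N1 N2 : ℕ) (l0 l1 : MvPolynomial (Fin (n + 1)) ℂ)
    (mm : Fin m → MvPolynomial (Fin (n + 1)) ℂ) :
    ((Fin N1 → ℂ) × (Fin m → Fin N2 → ℂ)) →ₗ[ℂ] MvPolynomial (Fin (n + 1)) ℂ where
  toFun p := ∑ b : Fin N1, p.1 b • (l0 ^ (d - b) * l1 ^ (b : ℕ)) +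
    ∑ j : Fin m, ∑ b : Fin N2, p.2 j b • (mm j * (l0 ^ (d - 1 - b) * l1 ^ (b : ℕ)))
  map_add' p q := by
    simp only [Prod.fst_add, Prod.snd_add, Pi.add_apply, add_smul, Finset.sum_add_distrib]
    abel
  map_smul' c p := by
    simp only [Prod.smul_fst, Prod.smul_snd, Pi.smul_apply, smul_eq_mul, mul_smul, smul_add,
      Finset.smul_sum, RingHom.id_apply]

lemma Phi_homog {n m d N1 N2 : ℕ} (h1 : N1 ≤ d + 1) (h2 : N2 ≤ d)
    {l0 l1 : MvPolynomial (Fin (n + 1)) ℂ} {mm : Fin m → MvPolynomial (Fin (n + 1)) ℂ}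
    (hl0 : l0.IsHomogeneous 1) (hl1 : l1.IsHomogeneous 1) (hm : ∀ j, (mm j).IsHomogeneous 1) (p) :
    Phi d N1 N2 l0 l1 mm p ∈ homogeneousSubmodule (Fin (n + 1)) ℂ d := by
  refine Submodule.add_mem _ ?_ ?_
  · refine Submodule.sum_mem _ fun b _ => Submodule.smul_mem _ _ ?_
    have := (hl0.pow (d - b)).mul (hl1.pow b)
    rw [mem_homogeneousSubmodule]
    convert this using 1
    omega
  · refine Submodule.sum_mem _ fun j _ => Submodule.sum_mem _ fun b _ => Submodule.smul_mem _ _ ?_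
    have := (hm j).mul ((hl0.pow (d - 1 - b)).mul (hl1.pow b))
    rw [mem_homogeneousSubmodule]
    convert this using 1
    omega


end Pool.Agent.H.MP_676d90_ag
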