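import Pool.Agent.H.MP_676d90_ag.Quartic

namespace Pool.Agent.H.MP_676d90_ag

open MvPolynomial Module

lemma aeval_pderiv_pull (b : Basis (Fin 4) ℂ (Fin 4 → ℂ)) (q : MvPolynomial (Fin 4) ℂ)
    (x : Fin 4 → ℂ) (j : Fin 4) :
    aeval (b.equivFun x) (pderiv j q) = aeval x (∑ i, C (b j i) * pderiv i (pull b q)) := by
  have h1 := coeff_one_dirHom (n := 3) (b.equivFun x) (b.equivFun (b j)) q
  rw [← dirHom_pull, coeff_one_dirHom (n := 3)] at h1
  rw [h1]
  congr 1
  rw [Finset.sum_eq_single j]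
  · rw [Basis.equivFun_self, if_pos rfl, C_1, one_mul]
  · intro i _ hi
    rw [Basis.equivFun_self, if_neg (Ne.symm hi), C_0, zero_mul]
  · simp

theorem four_bound {Y : Finset (Projectivization ℂ (Fin (3 + 1) → ℂ))} (hgen : GenericSupport Y)
    (hc : Y.card = 7) (h3 : hilbert (symbolicSquare Y) 3 ≤ 19) :
    25 ≤ hilbert (symbolicSquare Y) 4 := by
  classical
  obtain ⟨b, hb, hY⟩ := structure_one hgen hc h3
  obtain ⟨P1, hP1, hbP1⟩ := hb 1 (by decide)
  obtain ⟨P2, hP2, hbP2⟩ := hb 2 (by decide)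
  obtain ⟨P3, hP3, hbP3⟩ := hb 3 (by decide)
  obtain ⟨Q1, hQ1, hQ10, hQ11⟩ := exists_further hgen hc b hY 1 (by decide)
  obtain ⟨Q2, hQ2, hQ20, hQ22⟩ := exists_further hgen hc b hY 2 (by decide)
  obtain ⟨Q3, hQ3, hQ30, hQ33⟩ := exists_further hgen hc b hY 3 (by decide)
  -- coordinates of the basis vectors
  have hb1 : b.equivFun (b 1) = ![0, 1, 0, 0] := by
    ext k
    rw [Basis.equivFun_self]
    fin_cases k <;> simp
  have hb2 : b.equivFun (b 2) = ![0, 0, 1, 0] := by
    ext k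
    rw [Basis.equivFun_self]
    fin_cases k <;> simp
  have hb3 : b.equivFun (b 3) = ![0, 0, 0, 1] := by
    ext k
    rw [Basis.equivFun_self]
    fin_cases k <;> simp
  -- coordinates of the further points
  obtain ⟨g1, hg1, hw1⟩ : ∃ g : ℂ, g ≠ 0 ∧
      b.equivFun ((b.equivFun Q1.rep 0)⁻¹ • Q1.rep) = ![1, g, 0, 0] := by
    refine ⟨(b.equivFun Q1.rep 0)⁻¹ * b.equivFun Q1.rep 1,
      mul_ne_zero (inv_ne_zero hQ10) hQ11, ?_⟩
    obtain ⟨r12, r13, r23⟩ := hY Q1 hQ1 _ (rep_mem Q1)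
    rw [map_smul]
    ext k
    fin_cases k
    · exact inv_mul_cancel₀ hQ10
    · rfl
    · change (b.equivFun Q1.rep 0)⁻¹ * b.equivFun Q1.rep 2 = 0
      rw [(mul_eq_zero.1 r12).resolve_left hQ11, mul_zero]
    · change (b.equivFun Q1.rep 0)⁻¹ * b.equivFun Q1.rep 3 = 0
      rw [(mul_eq_zero.1 r13).resolve_left hQ11, mul_zero]
  obtain ⟨g2, hg2, hw2⟩ : ∃ g : ℂ, g ≠ 0 ∧
      b.equivFun ((b.equivFun Q2.rep 0)⁻¹ • Q2.rep) = ![1, 0, g, 0] := by
    refine ⟨(b.equivFun Q2.rep 0)⁻¹ * b.equivFun Q2.rep 2,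
      mul_ne_zero (inv_ne_zero hQ20) hQ22, ?_⟩
    obtain ⟨r12, r13, r23⟩ := hY Q2 hQ2 _ (rep_mem Q2)
    rw [map_smul]
    ext k
    fin_cases k
    · exact inv_mul_cancel₀ hQ20
    · change (b.equivFun Q2.rep 0)⁻¹ * b.equivFun Q2.rep 1 = 0
      rw [(mul_eq_zero.1 r12).resolve_right hQ22, mul_zero]
    · rfl
    · change (b.equivFun Q2.rep 0)⁻¹ * b.equivFun Q2.rep 3 = 0
      rw [(mul_eq_zero.1 r23).resolve_left hQ22, mul_zero]
  obtain ⟨g3, hg3, hw3⟩ : ∃ g : ℂ, g ≠ 0 ∧
      b.equivFun ((b.equivFun Q3.rep 0)⁻¹ • Q3.rep) = ![1, 0, 0, g] := by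
    refine ⟨(b.equivFun Q3.rep 0)⁻¹ * b.equivFun Q3.rep 3,
      mul_ne_zero (inv_ne_zero hQ30) hQ33, ?_⟩
    obtain ⟨r12, r13, r23⟩ := hY Q3 hQ3 _ (rep_mem Q3)
    rw [map_smul]
    ext k
    fin_cases k
    · exact inv_mul_cancel₀ hQ30
    · change (b.equivFun Q3.rep 0)⁻¹ * b.equivFun Q3.rep 1 = 0
      rw [(mul_eq_zero.1 r13).resolve_right hQ33, mul_zero]
    · change (b.equivFun Q3.rep 0)⁻¹ * b.equivFun Q3.rep 2 = 0
      rw [(mul_eq_zero.1 r23).resolve_right hQ33, mul_zero]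
    · rfl
  -- the seventh point
  obtain ⟨P, hP, hPn⟩ : ∃ P ∈ Y, P ∉ ({P1, P2, P3, Q1, Q2, Q3} : Finset _) := by
    apply Finset.exists_mem_notMem_of_card_lt_card
    have h6 : ({P1, P2, P3, Q1, Q2, Q3} : Finset (Projectivization ℂ (Fin (3 + 1) → ℂ))).card
        ≤ 6 := Finset.card_le_six
    omega
  simp only [Finset.mem_insert, Finset.mem_singleton, not_or] at hPn
  obtain ⟨n1, n2, n3, m1, m2, m3⟩ := hPn
  have hP0 : P.rep ≠ 0 := Projectivization.rep_nonzero _
  have seventh : (∃ a z, a ≠ 0 ∧ z ≠ g1 * a ∧ b.equivFun P.rep = ![a, z, 0, 0]) ∨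
      (∃ a z, a ≠ 0 ∧ z ≠ g2 * a ∧ b.equivFun P.rep = ![a, 0, z, 0]) ∨
      (∃ a z, a ≠ 0 ∧ z ≠ g3 * a ∧ b.equivFun P.rep = ![a, 0, 0, z]) := by
    -- if the point has coordinates of the first kind ...
    have c1 : ∀ a z, b.equivFun P.rep = ![a, z, 0, 0] → a ≠ 0 ∧ z ≠ g1 * a := by
      intro a z h
      constructor
      · rintro rfl
        apply n1
        have : P.rep = z • b 1 := by
          apply b.equivFun.injective
          rw [h, map_smul, hb1]
          ext k; fin_cases k <;> simp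
        refine eq_of_mem hP0 (rep_mem P) ?_
        rw [this]
        exact Submodule.smul_mem _ _ hbP1
      · rintro rfl
        apply m1
        have : P.rep = a • ((b.equivFun Q1.rep 0)⁻¹ • Q1.rep) := by
          apply b.equivFun.injective
          rw [h, map_smul, hw1]
          ext k; fin_cases k <;> simp [mul_comm]
        refine eq_of_mem hP0 (rep_mem P) ?_
        rw [this]
        exact Submodule.smul_mem _ _ (Submodule.smul_mem _ _ (rep_mem Q1))
    have c2 : ∀ a z, b.equivFun P.rep = ![a, 0, z, 0] → a ≠ 0 ∧ z ≠ g2 * a := by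
      intro a z h
      constructor
      · rintro rfl
        apply n2
        have : P.rep = z • b 2 := by
          apply b.equivFun.injective
          rw [h, map_smul, hb2]
          ext k; fin_cases k <;> simp
        refine eq_of_mem hP0 (rep_mem P) ?_
        rw [this]
        exact Submodule.smul_mem _ _ hbP2
      · rintro rfl
        apply m2
        have : P.rep = a • ((b.equivFun Q2.rep 0)⁻¹ • Q2.rep) := by
          apply b.equivFun.injective
          rw [h, map_smul, hw2]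
          ext k; fin_cases k <;> simp [mul_comm]
        refine eq_of_mem hP0 (rep_mem P) ?_
        rw [this]
        exact Submodule.smul_mem _ _ (Submodule.smul_mem _ _ (rep_mem Q2))
    have c3 : ∀ a z, b.equivFun P.rep = ![a, 0, 0, z] → a ≠ 0 ∧ z ≠ g3 * a := by
      intro a z h
      constructor
      · rintro rfl
        apply n3
        have : P.rep = z • b 3 := by
          apply b.equivFun.injective
          rw [h, map_smul, hb3]
          ext k; fin_cases k <;> simp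
        refine eq_of_mem hP0 (rep_mem P) ?_
        rw [this]
        exact Submodule.smul_mem _ _ hbP3
      · rintro rfl
        apply m3
        have : P.rep = a • ((b.equivFun Q3.rep 0)⁻¹ • Q3.rep) := by
          apply b.equivFun.injective
          rw [h, map_smul, hw3]
          ext k; fin_cases k <;> simp [mul_comm]
        refine eq_of_mem hP0 (rep_mem P) ?_
        rw [this]
        exact Submodule.smul_mem _ _ (Submodule.smul_mem _ _ (rep_mem Q3))
    obtain ⟨r12, r13, r23⟩ := hY P hP _ (rep_mem P)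
    by_cases h1 : b.equivFun P.rep 1 = 0
    · by_cases h2 : b.equivFun P.rep 2 = 0
      · right; right
        have h : b.equivFun P.rep = ![b.equivFun P.rep 0, 0, 0, b.equivFun P.rep 3] := by
          ext k; fin_cases k
          · rfl
          · exact h1
          · exact h2
          · rfl
        exact ⟨_, _, (c3 _ _ h).1, (c3 _ _ h).2, h⟩
      · right; left
        have h : b.equivFun P.rep = ![b.equivFun P.rep 0, 0, b.equivFun P.rep 2, 0] := by
          ext k; fin_cases k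
          · rfl
          · exact h1
          · rfl
          · exact (mul_eq_zero.1 r23).resolve_left h2
        exact ⟨_, _, (c2 _ _ h).1, (c2 _ _ h).2, h⟩
    · left
      have h : b.equivFun P.rep = ![b.equivFun P.rep 0, b.equivFun P.rep 1, 0, 0] := by
        ext k; fin_cases k
        · rfl
        · rfl
        · exact (mul_eq_zero.1 r12).resolve_left h1
        · exact (mul_eq_zero.1 r13).resolve_left h1
      exact ⟨_, _, (c1 _ _ h).1, (c1 _ _ h).2, h⟩
  -- the family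
  refine le_hilbert (M := Fin 25 → ℂ) ?_ ((pull b).toLinearMap.comp qform)
    (fun c => isHomogeneous_pull b (qform_homog c)) ?_
  · rw [finrank_fintype_fun_eq_card, Fintype.card_fin]
  intro c hmem
  change pull b (qform c) ∈ symbolicSquare Y at hmem
  have hd : ∀ R ∈ Y, ∀ w ∈ R.submodule, ∀ j,
      aeval (b.equivFun w) (pderiv j (qform c)) = 0 := by
    intro R hR w hw j
    rw [aeval_pderiv_pull]
    exact dir_zero_of_mem hmem hR hw (b j)
  have hv : aeval (b.equivFun P.rep) (qform c) = 0 := by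
    rw [← aeval_pull]
    exact zero_of_mem hmem hP (rep_mem P)
  refine core c g1 g2 g3 hg1 hg2 hg3 ?_ ?_ ?_ ?_ ?_ ?_ ?_
  · rw [← hb1]; exact hd P1 hP1 _ hbP1
  · rw [← hb2]; exact hd P2 hP2 _ hbP2
  · rw [← hb3]; exact hd P3 hP3 _ hbP3
  · rw [← hw1]; exact hd Q1 hQ1 _ (Submodule.smul_mem _ _ (rep_mem Q1))
  · rw [← hw2]; exact hd Q2 hQ2 _ (Submodule.smul_mem _ _ (rep_mem Q2))
  · rw [← hw3]; exact hd Q3 hQ3 _ (Submodule.smul_mem _ _ (rep_mem Q3))
  · rcases seventh with ⟨a, z, ha, hz, h⟩ | ⟨a, z, ha, hz, h⟩ | ⟨a, z, ha, hz, h⟩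
    · exact Or.inl ⟨a, z, ha, hz, h ▸ hv⟩
    · exact Or.inr (Or.inl ⟨a, z, ha, hz, h ▸ hv⟩)
    · exact Or.inr (Or.inr ⟨a, z, ha, hz, h ▸ hv⟩)

end Pool.Agent.H.MP_676d90_ag
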