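import Pool.Agent.H.MP_676d90_ag.Structure

namespace Pool.Agent.H.MP_676d90_ag

open MvPolynomial Module

lemma mem_pointIdeal_pull (b : Basis (Fin 4) ℂ (Fin 4 → ℂ)) {d : ℕ}
    {q : MvPolynomial (Fin 4) ℂ} (hq : q.IsHomogeneous d)
    (P : Projectivization ℂ (Fin (3 + 1) → ℂ)) :
    pull b q ∈ pointIdeal P ↔ aeval (b.equivFun P.rep) q = 0 := by
  rw [mem_pointIdeal_of_homog (isHomogeneous_pull b hq) P (rep_mem P)
    (Projectivization.rep_nonzero _), aeval_pull]

/-- on each of the three lines there is a further point -/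
lemma exists_further {Y : Finset (Projectivization ℂ (Fin (3 + 1) → ℂ))}
    (hgen : GenericSupport Y) (hc : Y.card = 7) (b : Basis (Fin 4) ℂ (Fin 4 → ℂ))
    (hY : ∀ P ∈ Y, ∀ w ∈ P.submodule, b.equivFun w 1 * b.equivFun w 2 = 0 ∧
        b.equivFun w 1 * b.equivFun w 3 = 0 ∧ b.equivFun w 2 * b.equivFun w 3 = 0)
    (i : Fin 4) (hi : i ≠ 0) :
    ∃ Q ∈ Y, b.equivFun Q.rep 0 ≠ 0 ∧ b.equivFun Q.rep i ≠ 0 := by
  by_contra hcon
  have hcon' : ∀ Q ∈ Y, b.equivFun Q.rep 0 * b.equivFun Q.rep i = 0 := by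
    intro Q hQ
    by_contra h
    exact hcon ⟨Q, hQ, left_ne_zero_of_mul h, right_ne_zero_of_mul h⟩
  let q : Fin 4 → MvPolynomial (Fin 4) ℂ := ![X 0 * X i, X 1 * X 2, X 1 * X 3, X 2 * X 3]
  have hq : ∀ k, (q k).IsHomogeneous 2 := by
    intro k
    have h2 : ∀ a c : Fin 4, (X a * X c : MvPolynomial (Fin 4) ℂ).IsHomogeneous 2 :=
      fun a c => (isHomogeneous_X ℂ a).mul (isHomogeneous_X ℂ c)
    fin_cases k <;> exact h2 _ _
  let Φ₀ : (Fin 4 → ℂ) →ₗ[ℂ] MvPolynomial (Fin 4) ℂ :=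
    ∑ k : Fin 4, (LinearMap.proj k).smulRight (q k)
  have hΦ₀ : ∀ c, Φ₀ c = ∑ k, C (c k) * q k := by
    intro c
    simp [Φ₀, LinearMap.sum_apply, smul_eq_C_mul]
  have hh₀ : ∀ c, (Φ₀ c).IsHomogeneous 2 := by
    intro c
    rw [hΦ₀]
    refine MvPolynomial.IsHomogeneous.sum _ _ _ fun i _ => ?_
    have := (MvPolynomial.isHomogeneous_C (Fin 4) (c i)).mul (hq i)
    rwa [zero_add] at this
  have hev : ∀ c (y : Fin 4 → ℂ), aeval y (Φ₀ c)
      = c 0 * (y 0 * y i) + c 1 * (y 1 * y 2) + c 2 * (y 1 * y 3) + c 3 * (y 2 * y 3) := by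
    intro c y
    rw [hΦ₀, map_sum, Fin.sum_univ_four]
    simp [q]
  have h1 : 4 ≤ finrank ℂ (piece (pointsIdeal Y) 2) := by
    refine le_finrank_piece (M := Fin 4 → ℂ) ?_ ((pull b).toLinearMap.comp Φ₀)
      (fun c => isHomogeneous_pull b (hh₀ c)) ?_ ?_
    · rw [finrank_fintype_fun_eq_card, Fintype.card_fin]
    · intro c
      rw [mem_pointsIdeal]
      intro P hP
      change pull b (Φ₀ c) ∈ pointIdeal P
      rw [mem_pointIdeal_pull b (hh₀ c), hev, hcon' P hP, (hY P hP _ (rep_mem P)).1,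
        (hY P hP _ (rep_mem P)).2.1, (hY P hP _ (rep_mem P)).2.2]
      ring
    · intro c hc0
      have hz : ∀ y : Fin 4 → ℂ, aeval y (Φ₀ c) = 0 := by
        intro y
        have h := aeval_pull b (b.equivFun.symm y) (Φ₀ c)
        rw [LinearEquiv.apply_symm_apply] at h
        rw [← h]
        change aeval _ (((pull b).toLinearMap.comp Φ₀) c) = 0
        rw [hc0, map_zero]
      simp only [hev] at hz
      have z1 := hz ![0, 1, 1, 0]
      have z2 := hz ![0, 1, 0, 1]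
      have z3 := hz ![0, 0, 1, 1]
      simp at z1 z2 z3
      have z0 := hz (Pi.single 0 1 + Pi.single i 1)
      have : c 0 = 0 := by
        simp [z1, z2, z3, hi, Ne.symm hi] at z0
        exact z0
      funext k
      fin_cases k
      · exact this
      · exact z1
      · exact z2
      · exact z3
  rw [piece_two hgen hc] at h1
  omega

end Pool.Agent.H.MP_676d90_ag
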