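import Pool.Agent.H.MP_676d90_ag.Defs

/-!
# Sets of points with generic Hilbert function
-/

namespace Pool.Agent.H.MP_676d90_ag

/-- The homogeneous ideal `I_Y` of a finite set `Y` of points. -/
noncomputable def pointsIdeal {n : ℕ} (Y : Finset (Projectivization ℂ (Fin (n + 1) → ℂ))) :
    Ideal (MvPolynomial (Fin (n + 1)) ℂ) :=
  ⨅ P ∈ Y, pointIdeal P

/-- `Y` has the generic (largest possible) Hilbert function: `H_{R/I_Y}(d) = min(C(n+d,n), |Y|)`
for all `d`. -/
def GenericSupport {n : ℕ} (Y : Finset (Projectivization ℂ (Fin (n + 1) → ℂ))) : Prop :=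
  ∀ d, hilbert (pointsIdeal Y) d = min ((n + d).choose n) Y.card

end Pool.Agent.H.MP_676d90_ag
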