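import Pool.Agent.H.MP_676d90_ag.Dim
import Pool.Agent.H.MP_676d90_ag.GenericDefs

namespace Pool.Agent.H.MP_676d90_ag

open MvPolynomial Module

variable {n : ℕ}

lemma mem_pointsIdeal {Y : Finset (Projectivization ℂ (Fin (n + 1) → ℂ))}
    {F : MvPolynomial (Fin (n + 1)) ℂ} : F ∈ pointsIdeal Y ↔ ∀ P ∈ Y, F ∈ pointIdeal P := by
  simp [pointsIdeal]

lemma aeval_smul_of_homog {d : ℕ} {F : MvPolynomial (Fin (n + 1)) ℂ} (hF : F.IsHomogeneous d)
    (a : ℂ) (v : Fin (n + 1) → ℂ) : aeval (a • v) F = a ^ d * aeval v F := by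
  rw [aeval_def, aeval_def, eval₂_eq', eval₂_eq', Finset.mul_sum]
  refine Finset.sum_congr rfl fun s hs => ?_
  have hs' : s.degree = d := by
    have := hF (mem_support_iff.1 hs)
    rw [← this, Finsupp.degree_eq_weight_one]
    rfl
  simp only [Pi.smul_apply, smul_eq_mul, mul_pow, Finset.prod_mul_distrib]
  rw [Finset.prod_pow_eq_pow_sum, ← hs', Finsupp.degree_eq_sum]
  ring

lemma mem_pointIdeal_of_homog {d : ℕ} {F : MvPolynomial (Fin (n + 1)) ℂ} (hF : F.IsHomogeneous d)
    (P : Projectivization ℂ (Fin (n + 1) → ℂ)) {v : Fin (n + 1) → ℂ} (hv : v ∈ P.submodule)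
    (hv0 : v ≠ 0) :
    F ∈ pointIdeal P ↔ aeval v F = 0 := by
  constructor
  · intro h
    exact h v hv
  · intro h w hw
    rw [Projectivization.submodule_eq] at hv hw
    obtain ⟨a, rfl⟩ := Submodule.mem_span_singleton.1 hv
    obtain ⟨b, rfl⟩ := Submodule.mem_span_singleton.1 hw
    have ha : a ≠ 0 := by
      rintro rfl
      simp at hv0
    have hb : b • P.rep = (b * a⁻¹) • (a • P.rep) := by
      rw [smul_smul, mul_assoc, inv_mul_cancel₀ ha, mul_one]
    rw [hb, aeval_smul_of_homog hF, h, mul_zero]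

/-- the degree `d` part of an ideal -/
noncomputable def piece (I : Ideal (MvPolynomial (Fin (n + 1)) ℂ)) (d : ℕ) :
    Submodule ℂ (homogeneousSubmodule (Fin (n + 1)) ℂ d) :=
  (I.restrictScalars ℂ).comap (homogeneousSubmodule (Fin (n + 1)) ℂ d).subtype

lemma mem_piece {I : Ideal (MvPolynomial (Fin (n + 1)) ℂ)} {d : ℕ}
    {F : homogeneousSubmodule (Fin (n + 1)) ℂ d} : F ∈ piece I d ↔ (F : MvPolynomial _ _) ∈ I :=
  Iff.rfl

lemma hilbert_add (I : Ideal (MvPolynomial (Fin (n + 1)) ℂ)) (d : ℕ) :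
    hilbert I d + finrank ℂ (piece I d) = (n + d).choose d := by
  rw [← finrank_homog n d]
  exact Submodule.finrank_quotient_add_finrank (piece I d)

/-- A lower bound for the Hilbert function from an injective parametrisation. -/
lemma le_hilbert {I : Ideal (MvPolynomial (Fin (n + 1)) ℂ)} {d N : ℕ} {M : Type*}
    [AddCommGroup M] [Module ℂ M] (hN : finrank ℂ M = N)
    (Φ : M →ₗ[ℂ] MvPolynomial (Fin (n + 1)) ℂ) (hΦ : ∀ m, (Φ m).IsHomogeneous d)
    (hinj : ∀ m, Φ m ∈ I → m = 0) : N ≤ hilbert I d := by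
  let Ψ : M →ₗ[ℂ] homogeneousSubmodule (Fin (n + 1)) ℂ d := Φ.codRestrict _ hΦ
  have h : Function.Injective ((piece I d).mkQ.comp Ψ) := by
    rw [← LinearMap.ker_eq_bot, LinearMap.ker_eq_bot']
    intro p hp
    rw [LinearMap.comp_apply, Submodule.mkQ_apply, Submodule.Quotient.mk_eq_zero] at hp
    exact hinj p hp
  rw [← hN]
  exact LinearMap.finrank_le_finrank_of_injective h

/-- A lower bound for the dimension of the degree `d` part of an ideal. -/
lemma le_finrank_piece {I : Ideal (MvPolynomial (Fin (n + 1)) ℂ)} {d N : ℕ} {M : Type*}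
    [AddCommGroup M] [Module ℂ M] (hN : finrank ℂ M = N)
    (Φ : M →ₗ[ℂ] MvPolynomial (Fin (n + 1)) ℂ) (hΦ : ∀ m, (Φ m).IsHomogeneous d)
    (hmem : ∀ m, Φ m ∈ I) (hinj : ∀ m, Φ m = 0 → m = 0) : N ≤ finrank ℂ (piece I d) := by
  let Ψ : M →ₗ[ℂ] homogeneousSubmodule (Fin (n + 1)) ℂ d := Φ.codRestrict _ hΦ
  let Ω : M →ₗ[ℂ] piece I d := Ψ.codRestrict _ hmem
  have h : Function.Injective Ω := by
    intro p q hpq
    have h1 : Φ p = Φ q := congrArg Subtype.val (congrArg Subtype.val hpq)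
    exact sub_eq_zero.1 (hinj (p - q) (by rw [map_sub, h1, sub_self]))
  rw [← hN]
  exact LinearMap.finrank_le_finrank_of_injective h

/-- An upper bound for the Hilbert function of `R/I_Y`. -/
lemma hilbert_pointsIdeal_le (Y : Finset (Projectivization ℂ (Fin (n + 1) → ℂ))) (d : ℕ) :
    hilbert (pointsIdeal Y) d ≤ Y.card := by
  let E : homogeneousSubmodule (Fin (n + 1)) ℂ d →ₗ[ℂ] (Y → ℂ) :=
    LinearMap.pi fun P => (aeval (R := ℂ) P.1.rep).toLinearMap.comp
      (homogeneousSubmodule (Fin (n + 1)) ℂ d).subtype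
  have hker : LinearMap.ker E ≤ piece (pointsIdeal Y) d := by
    intro F hF
    rw [mem_piece, mem_pointsIdeal]
    intro P hP
    have h := congrFun hF ⟨P, hP⟩
    rw [mem_pointIdeal_of_homog F.2 P (v := P.rep) (by
      rw [Projectivization.submodule_eq]; exact Submodule.mem_span_singleton_self _)
      (Projectivization.rep_nonzero _)]
    exact h
  have h1 := LinearMap.finrank_range_add_finrank_ker E
  have h2 := Submodule.finrank_mono hker
  have h3 := hilbert_add (pointsIdeal Y) d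
  have h4 := Submodule.finrank_le (LinearMap.range E)
  rw [finrank_fintype_fun_eq_card, Fintype.card_coe] at h4
  rw [finrank_homog] at h1
  omega

end Pool.Agent.H.MP_676d90_ag
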