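import Pool.Agent.H.MP_676d90_ag.Forms

namespace Pool.Agent.H.MP_676d90_ag

open MvPolynomial Module

lemma coeff_one_of_X_sq_dvd {p : Polynomial ℂ} (h : Polynomial.X ^ 2 ∣ p) : p.coeff 1 = 0 := by
  rw [Polynomial.X_pow_dvd_iff] at h
  exact h 1 (by norm_num)

/-- The key lemma: a form of the special shape in `I_Y^{(2)}` is zero. -/
lemma Phi_injOn {n : ℕ} {d r : ℕ} (Y : Finset (Projectivization ℂ (Fin (n + 1) → ℂ)))
    (hr : Y.card = r) {L0 L1 : Dual ℂ (Fin (n + 1) → ℂ)} {u1 : Fin (n + 1) → ℂ}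
    {w : Fin (n - 1) → (Fin (n + 1) → ℂ)} {M : Fin (n - 1) → Dual ℂ (Fin (n + 1) → ℂ)}
    (h0 : ∀ P ∈ Y, L0 P.rep ≠ 0)
    (h1 : ∀ P ∈ Y, ∀ Q ∈ Y, P ≠ Q → L0 Q.rep * L1 P.rep ≠ L0 P.rep * L1 Q.rep)
    (hu : L0 u1 = 0 ∧ L1 u1 = 1) (hw : ∀ j, L0 (w j) = 0 ∧ L1 (w j) = 0)
    (hM : ∀ i j, M i (w j) = if i = j then 1 else 0)
    (p : (Fin (min (d + 1) (2 * r)) → ℂ) × (Fin (n - 1) → Fin (min d r) → ℂ))
    (hp : Phi d _ _ (lin L0) (lin L1) (fun j => lin (M j)) p ∈ symbolicSquare Y) : p = 0 := by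
  classical
  obtain ⟨f, g⟩ := p
  let t : Projectivization ℂ (Fin (n + 1) → ℂ) → ℂ := fun P => (L0 P.rep)⁻¹ * L1 P.rep
  have ht : ∀ P ∈ Y, ∀ Q ∈ Y, t P = t Q → P = Q := by
    intro P hP Q hQ h
    by_contra hne
    apply h1 P hP Q hQ hne
    have e1 : L1 P.rep = L0 P.rep * t P := by
      simp only [t]; rw [mul_inv_cancel_left₀ (h0 P hP)]
    have e2 : L1 Q.rep = L0 Q.rep * t Q := by
      simp only [t]; rw [mul_inv_cancel_left₀ (h0 Q hQ)]
    rw [e1, e2, h]
    ring
  let v : Projectivization ℂ (Fin (n + 1) → ℂ) → (Fin (n + 1) → ℂ) := fun P =>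
    (L0 P.rep)⁻¹ • P.rep
  have hv : ∀ P ∈ Y, v P ∈ P.submodule := by
    intro P _
    rw [Projectivization.submodule_eq]
    exact Submodule.smul_mem _ _ (Submodule.mem_span_singleton_self _)
  have hv0 : ∀ P ∈ Y, L0 (v P) = 1 := by
    intro P hP
    simp only [v]
    rw [map_smul, smul_eq_mul, inv_mul_cancel₀ (h0 P hP)]
  have hv1 : ∀ P ∈ Y, L1 (v P) = t P := by
    intro P hP
    simp only [v, t]
    rw [map_smul, smul_eq_mul]
  let s : Finset ℂ := Y.image t
  have hs : s.card = r := by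
    rw [← hr]
    exact Finset.card_image_of_injOn (fun P hP Q hQ h => ht P hP Q hQ h)
  -- the `g`-part vanishes
  have hg : g = 0 := by
    funext j0
    refine pol_zero_of_eval (Nat.min_le_right d r) (g j0) s hs ?_
    intro x hx
    obtain ⟨P, hP, rfl⟩ := Finset.mem_image.1 hx
    have hdvd := X_sq_dvd_dirHom (mem_symbolicSquare.1 hp P hP) (hv P hP) (w j0)
    have hc := coeff_one_of_X_sq_dvd hdvd
    have hd0 : dirHom (v P) (w j0) (lin L0) = 1 := by
      rw [dirHom_lin, hv0 P hP, (hw j0).1]; simp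
    have hd1 : dirHom (v P) (w j0) (lin L1) = Polynomial.C (t P) := by
      rw [dirHom_lin, hv1 P hP, (hw j0).2]; simp
    have hdm : ∀ j, dirHom (v P) (w j0) (lin (M j)) = Polynomial.C (M j (v P)) +
        Polynomial.C (if j = j0 then 1 else 0) * Polynomial.X := by
      intro j
      rw [dirHom_lin, hM]
    have hexp : dirHom (v P) (w j0) (Phi d _ _ (lin L0) (lin L1) (fun j => lin (M j)) (f, g))
        = Polynomial.C (∑ b, f b * t P ^ (b : ℕ) + ∑ j, ∑ b, g j b * (M j (v P) * t P ^ (b : ℕ)))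
          + Polynomial.C (∑ b, g j0 b * t P ^ (b : ℕ)) * Polynomial.X := by
      have e1 : Polynomial.C (∑ b, g j0 b * t P ^ (b : ℕ)) * Polynomial.X
          = ∑ j, ∑ b, Polynomial.C (g j b) * (Polynomial.C (if j = j0 then 1 else 0) *
            Polynomial.X * Polynomial.C (t P ^ (b : ℕ))) := by
        rw [Finset.sum_eq_single j0]
        · rw [map_sum, Finset.sum_mul]
          refine Finset.sum_congr rfl fun b _ => ?_
          rw [if_pos rfl, map_mul, map_one]
          ring
        · intro j _ hj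
          refine Finset.sum_eq_zero fun b _ => ?_
          rw [if_neg hj]
          simp
        · simp
      rw [e1]
      simp only [Phi, LinearMap.coe_mk, AddHom.coe_mk, map_add, map_sum, map_smul, map_mul,
        map_pow, hd0, hd1, hdm, one_pow, one_mul, Polynomial.smul_eq_C_mul]
      rw [add_assoc, ← Finset.sum_add_distrib]
      congr 1
      refine Finset.sum_congr rfl fun j _ => ?_
      rw [← Finset.sum_add_distrib]
      refine Finset.sum_congr rfl fun b _ => ?_
      ring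
    rw [hexp] at hc
    simp only [Polynomial.coeff_add, Polynomial.coeff_C_succ, Polynomial.coeff_C_mul,
      Polynomial.coeff_X_one, mul_one, zero_add] at hc
    rw [pol, Polynomial.eval_finsetSum]
    simpa using hc
  -- the `f`-part vanishes
  have hf : f = 0 := by
    refine pol_zero_of_sq_dvd (Nat.min_le_right _ _) f s hs ?_
    intro x hx
    obtain ⟨P, hP, rfl⟩ := Finset.mem_image.1 hx
    have hdvd := X_sq_dvd_dirHom (mem_symbolicSquare.1 hp P hP) (hv P hP) u1
    have hd0 : dirHom (v P) u1 (lin L0) = 1 := by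
      rw [dirHom_lin, hv0 P hP, hu.1]; simp
    have hd1 : dirHom (v P) u1 (lin L1) = Polynomial.X + Polynomial.C (t P) := by
      rw [dirHom_lin, hv1 P hP, hu.2]; simp [add_comm]
    have hexp : dirHom (v P) u1 (Phi d _ _ (lin L0) (lin L1) (fun j => lin (M j)) (f, g))
        = (pol f).comp (Polynomial.X + Polynomial.C (t P)) := by
      rw [hg]
      simp only [Phi, LinearMap.coe_mk, AddHom.coe_mk, map_add, map_sum, map_smul, map_mul,
        map_pow, hd0, hd1, one_pow, one_mul, Polynomial.smul_eq_C_mul, Pi.zero_apply, map_zero,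
        zero_mul, Finset.sum_const_zero, add_zero, pol, Polynomial.sum_comp,
        Polynomial.mul_comp, Polynomial.C_comp, Polynomial.X_pow_comp]
    rw [hexp] at hdvd
    obtain ⟨q, hq⟩ := hdvd
    refine ⟨q.comp (Polynomial.X - Polynomial.C (t P)), ?_⟩
    have h2 := congrArg (fun z => Polynomial.comp z (Polynomial.X - Polynomial.C (t P))) hq
    simp only [Polynomial.comp_assoc, Polynomial.add_comp, Polynomial.X_comp, Polynomial.C_comp,
      sub_add_cancel, Polynomial.comp_X, Polynomial.mul_comp, Polynomial.X_pow_comp] at h2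
    exact h2
  rw [hf, hg]
  rfl

theorem lower_bound {n : ℕ} (hn : 1 ≤ n) {d r : ℕ}
    (Y : Finset (Projectivization ℂ (Fin (n + 1) → ℂ))) (hr : Y.card = r) :
    min (d + 1) (2 * r) + (n - 1) * min d r ≤ hilbert (symbolicSquare Y) d := by
  obtain ⟨L0, L1, u1, w, M, h0, h1, hu, hw, hM⟩ := exists_forms hn Y
  let Ψ : ((Fin (min (d + 1) (2 * r)) → ℂ) × (Fin (n - 1) → Fin (min d r) → ℂ)) →ₗ[ℂ]
      homogeneousSubmodule (Fin (n + 1)) ℂ d :=
    (Phi d _ _ (lin L0) (lin L1) (fun j => lin (M j))).codRestrict _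
      (Phi_homog (Nat.min_le_left _ _) (Nat.min_le_left _ _) (isHomogeneous_lin _)
        (isHomogeneous_lin _) (fun j => isHomogeneous_lin _))
  have hinj : Function.Injective ((Submodule.mkQ ((Submodule.restrictScalars ℂ
      (symbolicSquare Y)).comap (homogeneousSubmodule (Fin (n + 1)) ℂ d).subtype)).comp Ψ) := by
    rw [← LinearMap.ker_eq_bot, LinearMap.ker_eq_bot']
    intro p hp
    rw [LinearMap.comp_apply, Submodule.mkQ_apply, Submodule.Quotient.mk_eq_zero] at hp
    exact Phi_injOn Y hr h0 h1 hu hw hM p hp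
  have : Module.Finite ℂ (homogeneousSubmodule (Fin (n + 1)) ℂ d) :=
    Module.Finite.iff_fg.2 (homogeneousSubmodule_fg _ _ d)
  have h := LinearMap.finrank_le_finrank_of_injective hinj
  rw [finrank_prod, finrank_fintype_fun_eq_card, Fintype.card_fin, finrank_pi_fintype] at h
  simp only [finrank_fintype_fun_eq_card, Fintype.card_fin, Finset.sum_const, Finset.card_univ,
    smul_eq_mul] at h
  exact h

end Pool.Agent.H.MP_676d90_ag
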