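import Pool.Agent.H.MP_676d90_ag.Further

namespace Pool.Agent.H.MP_676d90_ag

open MvPolynomial Module

/-- exponents of twenty-five quartic monomials -/
def ex : Fin 25 → Fin 4 → ℕ :=
  ![![0, 4, 0, 0], ![0, 0, 4, 0], ![0, 0, 0, 4], ![1, 3, 0, 0], ![1, 0, 3, 0], ![1, 0, 0, 3],
    ![0, 3, 1, 0], ![0, 3, 0, 1], ![0, 1, 3, 0], ![0, 0, 3, 1], ![0, 1, 0, 3], ![0, 0, 1, 3],
    ![4, 0, 0, 0], ![3, 1, 0, 0], ![3, 0, 1, 0], ![3, 0, 0, 1], ![2, 2, 0, 0], ![2, 0, 2, 0],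
    ![2, 0, 0, 2], ![1, 2, 1, 0], ![1, 2, 0, 1], ![1, 1, 2, 0], ![1, 0, 2, 1], ![1, 1, 0, 2],
    ![1, 0, 1, 2]]

/-- the monomials -/
noncomputable def mono (t : Fin 25) : MvPolynomial (Fin 4) ℂ :=
  monomial (Finsupp.equivFunOnFinite.symm (ex t)) 1

lemma mono_homog (t : Fin 25) : (mono t).IsHomogeneous 4 := by
  refine isHomogeneous_monomial _ ?_
  rw [Finsupp.degree_eq_sum]
  simp only [Finsupp.equivFunOnFinite_symm_apply_apply]
  revert t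
  decide

lemma aeval_mono (t : Fin 25) (w : Fin 4 → ℂ) : aeval w (mono t) = ∏ k, w k ^ ex t k := by
  rw [mono, aeval_monomial, map_one, one_mul, Finsupp.prod_fintype]
  · rfl
  · intro i; exact pow_zero _

lemma aeval_pderiv_mono (t : Fin 25) (w : Fin 4 → ℂ) (j : Fin 4) :
    aeval w (pderiv j (mono t)) = (ex t j : ℂ) * ∏ k, w k ^ (ex t k - if k = j then 1 else 0) := by
  classical
  rw [mono, pderiv_monomial, aeval_monomial, one_mul, Finsupp.prod_fintype]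
  · congr 1
    refine Finset.prod_congr rfl fun k _ => ?_
    congr 1
    rw [Finsupp.tsub_apply, Finsupp.single_apply]
    simp only [Finsupp.equivFunOnFinite_symm_apply_apply, eq_comm]
  · intro i; exact pow_zero _

/-- the parametrised quartics -/
noncomputable def qform : (Fin 25 → ℂ) →ₗ[ℂ] MvPolynomial (Fin 4) ℂ :=
  ∑ t : Fin 25, (LinearMap.proj t).smulRight (mono t)

lemma qform_apply (c : Fin 25 → ℂ) : qform c = ∑ t, c t • mono t := by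
  simp [qform, LinearMap.sum_apply]

lemma qform_homog (c : Fin 25 → ℂ) : (qform c).IsHomogeneous 4 := by
  rw [qform_apply]
  exact Submodule.sum_mem (homogeneousSubmodule (Fin 4) ℂ 4)
    fun i _ => Submodule.smul_mem _ _ (mono_homog i)

lemma aeval_qform (c : Fin 25 → ℂ) (w : Fin 4 → ℂ) :
    aeval w (qform c) = ∑ t, c t * ∏ k, w k ^ ex t k := by
  rw [qform_apply, map_sum]
  refine Finset.sum_congr rfl fun t _ => ?_
  rw [map_smul, aeval_mono, smul_eq_mul]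

lemma aeval_pderiv_qform (c : Fin 25 → ℂ) (w : Fin 4 → ℂ) (j : Fin 4) :
    aeval w (pderiv j (qform c))
      = ∑ t, c t * ((ex t j : ℂ) * ∏ k, w k ^ (ex t k - if k = j then 1 else 0)) := by
  rw [qform_apply, map_sum, map_sum]
  refine Finset.sum_congr rfl fun t _ => ?_
  rw [Derivation.map_smul, map_smul, aeval_pderiv_mono, smul_eq_mul]

lemma core_e1 (c : Fin 25 → ℂ)
    (h : ∀ j, aeval (![0, 1, 0, 0] : Fin 4 → ℂ) (pderiv j (qform c)) = 0) :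
    c 0 = 0 ∧ c 3 = 0 ∧ c 6 = 0 ∧ c 7 = 0 := by
  have h0 := h 0
  have h1 := h 1
  have h2 := h 2
  have h3 := h 3
  rw [aeval_pderiv_qform] at h0 h1 h2 h3
  simp [ex, Fin.sum_univ_succ, Fin.prod_univ_succ] at h0 h1 h2 h3
  exact ⟨h1, h0, h2, h3⟩

lemma core_e2 (c : Fin 25 → ℂ)
    (h : ∀ j, aeval (![0, 0, 1, 0] : Fin 4 → ℂ) (pderiv j (qform c)) = 0) :
    c 1 = 0 ∧ c 4 = 0 ∧ c 8 = 0 ∧ c 9 = 0 := by
  have h0 := h 0
  have h1 := h 1
  have h2 := h 2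
  have h3 := h 3
  rw [aeval_pderiv_qform] at h0 h1 h2 h3
  simp [ex, Fin.sum_univ_succ, Fin.prod_univ_succ] at h0 h1 h2 h3
  exact ⟨h2, h0, h1, h3⟩

lemma core_e3 (c : Fin 25 → ℂ)
    (h : ∀ j, aeval (![0, 0, 0, 1] : Fin 4 → ℂ) (pderiv j (qform c)) = 0) :
    c 2 = 0 ∧ c 5 = 0 ∧ c 10 = 0 ∧ c 11 = 0 := by
  have h0 := h 0
  have h1 := h 1
  have h2 := h 2
  have h3 := h 3
  rw [aeval_pderiv_qform] at h0 h1 h2 h3
  simp [ex, Fin.sum_univ_succ, Fin.prod_univ_succ] at h0 h1 h2 h3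
  exact ⟨h3, h0, h1, h2⟩

lemma core_w1 (c : Fin 25 → ℂ) (g : ℂ)
    (h : ∀ j, aeval (![1, g, 0, 0] : Fin 4 → ℂ) (pderiv j (qform c)) = 0) :
    4 * c 12 + 3 * c 13 * g + 2 * c 16 * g ^ 2 + c 3 * g ^ 3 = 0 ∧
    c 13 + 2 * c 16 * g + 3 * c 3 * g ^ 2 + 4 * c 0 * g ^ 3 = 0 ∧
    c 14 + c 19 * g ^ 2 + c 6 * g ^ 3 = 0 ∧
    c 15 + c 20 * g ^ 2 + c 7 * g ^ 3 = 0 := by
  have h0 := h 0
  have h1 := h 1
  have h2 := h 2
  have h3 := h 3
  rw [aeval_pderiv_qform] at h0 h1 h2 h3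
  simp [ex, Fin.sum_univ_succ, Fin.prod_univ_succ] at h0 h1 h2 h3
  refine ⟨?_, ?_, ?_, ?_⟩
  · linear_combination h0
  · linear_combination h1
  · linear_combination h2
  · linear_combination h3

lemma core_w2 (c : Fin 25 → ℂ) (g : ℂ)
    (h : ∀ j, aeval (![1, 0, g, 0] : Fin 4 → ℂ) (pderiv j (qform c)) = 0) :
    4 * c 12 + 3 * c 14 * g + 2 * c 17 * g ^ 2 + c 4 * g ^ 3 = 0 ∧
    c 14 + 2 * c 17 * g + 3 * c 4 * g ^ 2 + 4 * c 1 * g ^ 3 = 0 ∧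
    c 13 + c 21 * g ^ 2 + c 8 * g ^ 3 = 0 ∧
    c 15 + c 22 * g ^ 2 + c 9 * g ^ 3 = 0 := by
  have h0 := h 0
  have h1 := h 1
  have h2 := h 2
  have h3 := h 3
  rw [aeval_pderiv_qform] at h0 h1 h2 h3
  simp [ex, Fin.sum_univ_succ, Fin.prod_univ_succ] at h0 h1 h2 h3
  refine ⟨?_, ?_, ?_, ?_⟩
  · linear_combination h0
  · linear_combination h2
  · linear_combination h1
  · linear_combination h3

lemma core_w3 (c : Fin 25 → ℂ) (g : ℂ)
    (h : ∀ j, aeval (![1, 0, 0, g] : Fin 4 → ℂ) (pderiv j (qform c)) = 0) :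
    4 * c 12 + 3 * c 15 * g + 2 * c 18 * g ^ 2 + c 5 * g ^ 3 = 0 ∧
    c 15 + 2 * c 18 * g + 3 * c 5 * g ^ 2 + 4 * c 2 * g ^ 3 = 0 ∧
    c 13 + c 23 * g ^ 2 + c 10 * g ^ 3 = 0 ∧
    c 14 + c 24 * g ^ 2 + c 11 * g ^ 3 = 0 := by
  have h0 := h 0
  have h1 := h 1
  have h2 := h 2
  have h3 := h 3
  rw [aeval_pderiv_qform] at h0 h1 h2 h3
  simp [ex, Fin.sum_univ_succ, Fin.prod_univ_succ] at h0 h1 h2 h3
  refine ⟨?_, ?_, ?_, ?_⟩
  · linear_combination h0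
  · linear_combination h3
  · linear_combination h1
  · linear_combination h2

lemma last (s p q g a z : ℂ) (ha : a ≠ 0) (hz : z ≠ g * a)
    (e1 : 4 * s + 3 * p * g + 2 * q * g ^ 2 = 0) (e2 : p + 2 * q * g = 0)
    (e3 : s * a ^ 4 + p * a ^ 3 * z + q * a ^ 2 * z ^ 2 = 0) : s = 0 := by
  have hp : p = -2 * q * g := by linear_combination e2
  have hs : s = q * g ^ 2 := by
    subst hp
    linear_combination e1 / 4
  subst hs hp
  have h1 : q * (a ^ 2 * (z - g * a) ^ 2) = 0 := by linear_combination e3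
  have h2 : q = 0 :=
    (mul_eq_zero.1 h1).resolve_right (mul_ne_zero (pow_ne_zero _ ha)
      (pow_ne_zero _ (sub_ne_zero.2 hz)))
  rw [h2, zero_mul]

lemma eq_zero_of_pair (s p q g : ℂ) (hg : g ≠ 0) (hs : s = 0)
    (e1 : 4 * s + 3 * p * g + 2 * q * g ^ 2 = 0) (e2 : p + 2 * q * g = 0) : p = 0 ∧ q = 0 := by
  subst hs
  have h1 : p * g = 0 := by linear_combination (e1 - g * e2) / 2
  have hp : p = 0 := (mul_eq_zero.1 h1).resolve_right hg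
  subst hp
  have h2 : q * g = 0 := by linear_combination e2 / 2
  exact ⟨rfl, (mul_eq_zero.1 h2).resolve_right hg⟩

lemma core (c : Fin 25 → ℂ) (g1 g2 g3 : ℂ) (hg1 : g1 ≠ 0) (hg2 : g2 ≠ 0) (hg3 : g3 ≠ 0)
    (hE1 : ∀ j, aeval (![0, 1, 0, 0] : Fin 4 → ℂ) (pderiv j (qform c)) = 0)
    (hE2 : ∀ j, aeval (![0, 0, 1, 0] : Fin 4 → ℂ) (pderiv j (qform c)) = 0)
    (hE3 : ∀ j, aeval (![0, 0, 0, 1] : Fin 4 → ℂ) (pderiv j (qform c)) = 0)
    (hW1 : ∀ j, aeval (![1, g1, 0, 0] : Fin 4 → ℂ) (pderiv j (qform c)) = 0)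
    (hW2 : ∀ j, aeval (![1, 0, g2, 0] : Fin 4 → ℂ) (pderiv j (qform c)) = 0)
    (hW3 : ∀ j, aeval (![1, 0, 0, g3] : Fin 4 → ℂ) (pderiv j (qform c)) = 0)
    (h7 : (∃ a z, a ≠ 0 ∧ z ≠ g1 * a ∧ aeval (![a, z, 0, 0] : Fin 4 → ℂ) (qform c) = 0) ∨
      (∃ a z, a ≠ 0 ∧ z ≠ g2 * a ∧ aeval (![a, 0, z, 0] : Fin 4 → ℂ) (qform c) = 0) ∨
      (∃ a z, a ≠ 0 ∧ z ≠ g3 * a ∧ aeval (![a, 0, 0, z] : Fin 4 → ℂ) (qform c) = 0)) :
    c = 0 := by
  obtain ⟨z0, z3, z6, z7⟩ := core_e1 c hE1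
  obtain ⟨z1, z4, z8, z9⟩ := core_e2 c hE2
  obtain ⟨z2, z5, z10, z11⟩ := core_e3 c hE3
  obtain ⟨a1, a2, a3, a4⟩ := core_w1 c g1 hW1
  obtain ⟨b1, b2, b3, b4⟩ := core_w2 c g2 hW2
  obtain ⟨d1, d2, d3, d4⟩ := core_w3 c g3 hW3
  rw [z3, zero_mul, add_zero] at a1
  rw [z3, z0, mul_zero, mul_zero, zero_mul, zero_mul, add_zero, add_zero] at a2
  rw [z6, zero_mul, add_zero] at a3
  rw [z7, zero_mul, add_zero] at a4
  rw [z4, zero_mul, add_zero] at b1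
  rw [z4, z1, mul_zero, mul_zero, zero_mul, zero_mul, add_zero, add_zero] at b2
  rw [z8, zero_mul, add_zero] at b3
  rw [z9, zero_mul, add_zero] at b4
  rw [z5, zero_mul, add_zero] at d1
  rw [z5, z2, mul_zero, mul_zero, zero_mul, zero_mul, add_zero, add_zero] at d2
  rw [z10, zero_mul, add_zero] at d3
  rw [z11, zero_mul, add_zero] at d4
  have hs : c 12 = 0 := by
    rcases h7 with ⟨a, z, ha, hz, h⟩ | ⟨a, z, ha, hz, h⟩ | ⟨a, z, ha, hz, h⟩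
    · rw [aeval_qform] at h
      simp [ex, Fin.sum_univ_succ, Fin.prod_univ_succ] at h
      refine last (c 12) (c 13) (c 16) g1 a z ha hz a1 a2 ?_
      rw [z0, z3] at h
      linear_combination h
    · rw [aeval_qform] at h
      simp [ex, Fin.sum_univ_succ, Fin.prod_univ_succ] at h
      refine last (c 12) (c 14) (c 17) g2 a z ha hz b1 b2 ?_
      rw [z1, z4] at h
      linear_combination h
    · rw [aeval_qform] at h
      simp [ex, Fin.sum_univ_succ, Fin.prod_univ_succ] at h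
      refine last (c 12) (c 15) (c 18) g3 a z ha hz d1 d2 ?_
      rw [z2, z5] at h
      linear_combination h
  obtain ⟨z13, z16⟩ := eq_zero_of_pair _ _ _ _ hg1 hs a1 a2
  obtain ⟨z14, z17⟩ := eq_zero_of_pair _ _ _ _ hg2 hs b1 b2
  obtain ⟨z15, z18⟩ := eq_zero_of_pair _ _ _ _ hg3 hs d1 d2
  rw [z14, zero_add] at a3 d4
  rw [z15, zero_add] at a4 b4
  rw [z13, zero_add] at b3 d3
  have z19 := (mul_eq_zero.1 a3).resolve_right (pow_ne_zero _ hg1)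
  have z20 := (mul_eq_zero.1 a4).resolve_right (pow_ne_zero _ hg1)
  have z21 := (mul_eq_zero.1 b3).resolve_right (pow_ne_zero _ hg2)
  have z22 := (mul_eq_zero.1 b4).resolve_right (pow_ne_zero _ hg2)
  have z23 := (mul_eq_zero.1 d3).resolve_right (pow_ne_zero _ hg3)
  have z24 := (mul_eq_zero.1 d4).resolve_right (pow_ne_zero _ hg3)
  funext t
  fin_cases t
  · exact z0
  · exact z1
  · exact z2
  · exact z3
  · exact z4
  · exact z5
  · exact z6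
  · exact z7
  · exact z8
  · exact z9
  · exact z10
  · exact z11
  · exact hs
  · exact z13
  · exact z14
  · exact z15
  · exact z16
  · exact z17
  · exact z18
  · exact z19
  · exact z20
  · exact z21
  · exact z22
  · exact z23
  · exact z24

end Pool.Agent.H.MP_676d90_ag
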