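import Pool.Agent.H.MP_676d90_ag.Generic

namespace Pool.Agent.H.MP_676d90_ag

open MvPolynomial Module

/-- a linear form with integer coefficients -/
noncomputable def ilin (a : Fin 4 → ℤ) : MvPolynomial (Fin 4) ℂ := ∑ k, C ((a k : ℤ) : ℂ) * X k

/-- an integer vector -/
def ivec (v : Fin 4 → ℤ) : Fin 4 → ℂ := fun k => ((v k : ℤ) : ℂ)

lemma aeval_ilin (a v : Fin 4 → ℤ) : aeval (ivec v) (ilin a) = ((∑ k, a k * v k : ℤ) : ℂ) := by
  rw [ilin, map_sum]
  push_cast
  refine Finset.sum_congr rfl fun k _ => ?_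
  rw [map_mul, aeval_X, algHom_C]
  rfl

lemma isHomogeneous_ilin (a : Fin 4 → ℤ) : (ilin a).IsHomogeneous 1 := by
  refine MvPolynomial.IsHomogeneous.sum _ _ _ fun i _ => ?_
  have := (MvPolynomial.isHomogeneous_C (Fin 4) ((a i : ℤ) : ℂ)).mul
    (MvPolynomial.isHomogeneous_X ℂ i)
  simpa using this

lemma ivec_ne_zero {v : Fin 4 → ℤ} (h : v ≠ 0) : ivec v ≠ 0 := by
  intro h'
  apply h
  funext k
  have := congrFun h' k
  simpa [ivec] using this

/-- the point with given integer coordinates -/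
noncomputable def ipt (v : Fin 4 → ℤ) (h : v ≠ 0) : Projectivization ℂ (Fin (3 + 1) → ℂ) :=
  Projectivization.mk ℂ (ivec v) (ivec_ne_zero h)

lemma ivec_mem (v : Fin 4 → ℤ) (h : v ≠ 0) : ivec v ∈ (ipt v h).submodule := by
  rw [ipt, Projectivization.submodule_mk]
  exact Submodule.mem_span_singleton_self _

lemma mem_ipt_of_homog {d : ℕ} {F : MvPolynomial (Fin 4) ℂ} (hF : F.IsHomogeneous d)
    (v : Fin 4 → ℤ) (h : v ≠ 0) : F ∈ pointIdeal (ipt v h) ↔ aeval (ivec v) F = 0 :=
  mem_pointIdeal_of_homog (n := 3) hF _ (ivec_mem v h) (ivec_ne_zero h)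

lemma ilin_mem (a v : Fin 4 → ℤ) (h : v ≠ 0) (h0 : ∑ k, a k * v k = 0) :
    ilin a ∈ pointIdeal (ipt v h) := by
  rw [mem_ipt_of_homog (isHomogeneous_ilin a), aeval_ilin, h0, Int.cast_zero]

/-- Data of seven points with separating quadrics. -/
structure SevenData where
  /-- the points -/
  v : Fin 7 → Fin 4 → ℤ
  /-- first factors of the separating quadrics -/
  a : Fin 7 → Fin 4 → ℤ
  /-- second factors of the separating quadrics -/
  b : Fin 7 → Fin 4 → ℤ
  /-- a linear form that vanishes at no point -/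
  l : Fin 4 → ℤ
  hsep : ∀ i j, ((∑ k, a i k * v j k) * (∑ k, b i k * v j k) = 0) ↔ i ≠ j
  hl : ∀ j, ∑ k, l k * v j k ≠ 0
  h0 : v 0 = ![1, 0, 0, 0]
  h1 : v 1 = ![0, 1, 0, 0]
  h2 : v 2 = ![0, 0, 1, 0]
  h3 : v 3 = ![0, 0, 0, 1]

namespace SevenData

variable (D : SevenData)

lemma v_ne (i : Fin 7) : D.v i ≠ 0 := by
  intro h
  apply D.hl i
  simp [h]

/-- the points of the configuration -/
noncomputable def pt (i : Fin 7) : Projectivization ℂ (Fin (3 + 1) → ℂ) := ipt (D.v i) (D.v_ne i)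

/-- the separating quadrics -/
noncomputable def q (i : Fin 7) : MvPolynomial (Fin 4) ℂ := ilin (D.a i) * ilin (D.b i)

lemma q_homog (i : Fin 7) : (D.q i).IsHomogeneous 2 :=
  (isHomogeneous_ilin _).mul (isHomogeneous_ilin _)

lemma aeval_q (i j : Fin 7) : aeval (ivec (D.v j)) (D.q i) = 0 ↔ i ≠ j := by
  rw [q, map_mul, aeval_ilin, aeval_ilin, ← Int.cast_mul, Int.cast_eq_zero]
  exact D.hsep i j

lemma pt_injective : Function.Injective D.pt := by
  intro i j h
  by_contra hne
  have h1 : D.q i ∈ pointIdeal (D.pt j) := by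
    rw [pt, mem_ipt_of_homog (D.q_homog i)]
    exact (D.aeval_q i j).2 hne
  rw [← h, pt, mem_ipt_of_homog (D.q_homog i)] at h1
  exact (D.aeval_q i i).1 h1 rfl

/-- the set of seven points -/
noncomputable def Y : Finset (Projectivization ℂ (Fin (3 + 1) → ℂ)) :=
  Finset.univ.map ⟨D.pt, D.pt_injective⟩

lemma card_Y : D.Y.card = 7 := by
  rw [Y, Finset.card_map, Finset.card_univ, Fintype.card_fin]

lemma mem_Y {P} : P ∈ D.Y ↔ ∃ i, D.pt i = P := by
  simp [Y]

lemma mem_pointsIdeal_Y {d : ℕ} {F : MvPolynomial (Fin 4) ℂ} (hF : F.IsHomogeneous d)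
    (h : F ∈ pointsIdeal D.Y) (i : Fin 7) : aeval (ivec (D.v i)) F = 0 := by
  have h1 := mem_pointsIdeal.1 h (D.pt i) (D.mem_Y.2 ⟨i, rfl⟩)
  rwa [pt, mem_ipt_of_homog hF] at h1

lemma generic : GenericSupport D.Y := by
  intro d
  rw [D.card_Y]
  refine le_antisymm (le_min ?_ ?_) ?_
  · have := hilbert_add (pointsIdeal D.Y) d
    rw [Nat.choose_symm_add]
    omega
  · have := hilbert_pointsIdeal_le D.Y d
    rwa [D.card_Y] at this
  · rcases d with _ | _ | d
    · -- degree 0
      refine (min_le_left _ _).trans ?_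
      refine le_hilbert (M := ℂ) (finrank_self ℂ) (Algebra.linearMap ℂ _) ?_ ?_
      · intro c
        exact isHomogeneous_C (Fin 4) c
      · intro c hc
        have := D.mem_pointsIdeal_Y (isHomogeneous_C (Fin 4) c) hc 0
        rw [algHom_C] at this
        exact this
    · -- degree 1
      refine (min_le_left _ _).trans ?_
      let Φ : (Fin 4 → ℂ) →ₗ[ℂ] MvPolynomial (Fin 4) ℂ :=
        ∑ k : Fin 4, (LinearMap.proj k).smulRight (X k)
      have hΦ : ∀ c, Φ c = ∑ k, c k • X k := by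
        intro c
        simp [Φ, LinearMap.sum_apply]
      have hh : ∀ c, (Φ c).IsHomogeneous 1 := by
        intro c
        rw [hΦ]
        exact Submodule.sum_mem (homogeneousSubmodule (Fin 4) ℂ 1)
          fun k _ => Submodule.smul_mem _ _ (isHomogeneous_X ℂ k)
      refine le_hilbert (M := Fin 4 → ℂ) ?_ Φ hh ?_
      · rw [finrank_fintype_fun_eq_card, Fintype.card_fin]; rfl
      · intro c hc
        have hev : ∀ w : Fin 4 → ℂ, aeval w (Φ c) = ∑ k, c k * w k := by
          intro w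
          rw [hΦ, map_sum]
          refine Finset.sum_congr rfl fun k _ => ?_
          rw [map_smul, aeval_X, smul_eq_mul]
        have e0 := D.mem_pointsIdeal_Y (hh c) hc 0
        have e1 := D.mem_pointsIdeal_Y (hh c) hc 1
        have e2 := D.mem_pointsIdeal_Y (hh c) hc 2
        have e3 := D.mem_pointsIdeal_Y (hh c) hc 3
        rw [hev] at e0 e1 e2 e3
        simp [ivec, D.h0, Fin.sum_univ_four] at e0
        simp [ivec, D.h1, Fin.sum_univ_four] at e1
        simp [ivec, D.h2, Fin.sum_univ_four] at e2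
        simp [ivec, D.h3, Fin.sum_univ_four] at e3
        funext k
        fin_cases k
        · exact e0
        · exact e1
        · exact e2
        · exact e3
    · -- degree at least 2
      refine (min_le_right _ _).trans ?_
      let Φ : (Fin 7 → ℂ) →ₗ[ℂ] MvPolynomial (Fin 4) ℂ :=
        ∑ i : Fin 7, (LinearMap.proj i).smulRight (D.q i * ilin D.l ^ d)
      have hΦ : ∀ c, Φ c = ∑ i, c i • (D.q i * ilin D.l ^ d) := by
        intro c
        simp [Φ, LinearMap.sum_apply]
      have hh : ∀ c, (Φ c).IsHomogeneous (d + 1 + 1) := by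
        intro c
        rw [hΦ]
        refine Submodule.sum_mem (homogeneousSubmodule (Fin 4) ℂ (d + 1 + 1))
          fun i _ => Submodule.smul_mem _ _ ?_
        have := (D.q_homog i).mul ((isHomogeneous_ilin D.l).pow d)
        rw [mem_homogeneousSubmodule]
        convert this using 1
        omega
      refine le_hilbert (M := Fin 7 → ℂ) ?_ Φ hh ?_
      · rw [finrank_fintype_fun_eq_card, Fintype.card_fin]
      · intro c hc
        funext j
        have e := D.mem_pointsIdeal_Y (hh c) hc j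
        rw [hΦ, map_sum, Finset.sum_eq_single j] at e
        · rw [map_smul, map_mul, map_pow, smul_eq_mul] at e
          have h1 : aeval (ivec (D.v j)) (D.q j) ≠ 0 := fun h => (D.aeval_q j j).1 h rfl
          have h2 : aeval (ivec (D.v j)) (ilin D.l) ≠ 0 := by
            rw [aeval_ilin, Int.cast_ne_zero]
            exact D.hl j
          rcases mul_eq_zero.1 e with h | h
          · exact h
          · exact absurd h (mul_ne_zero h1 (pow_ne_zero _ h2))
        · intro i _ hij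
          rw [map_smul, map_mul, (D.aeval_q i j).2 hij, zero_mul, smul_zero]
        · simp

end SevenData

/-- three concurrent lines -/
def data1 : SevenData where
  v := ![![1, 0, 0, 0], ![0, 1, 0, 0], ![0, 0, 1, 0], ![0, 0, 0, 1], ![1, 1, 0, 0], ![1, 0, 1, 0],
    ![1, 0, 0, 1]]
  a := ![![1, 0, 0, 0], ![0, 1, 0, 0], ![0, 0, 1, 0], ![0, 0, 0, 1], ![1, 0, 0, 0], ![1, 0, 0, 0],
    ![1, 0, 0, 0]]
  b := ![![1, -1, -1, -1], ![-1, 1, 0, 0], ![-1, 0, 1, 0], ![-1, 0, 0, 1], ![0, 1, 0, 0],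
    ![0, 0, 1, 0], ![0, 0, 0, 1]]
  l := ![1, 1, 1, 1]
  hsep := by decide
  hl := by decide
  h0 := rfl
  h1 := rfl
  h2 := rfl
  h3 := rfl

/-- a complete quadrilateral and a point outside its plane -/
def data2 : SevenData where
  v := ![![1, 0, 0, 0], ![0, 1, 0, 0], ![0, 0, 1, 0], ![0, 0, 0, 1], ![1, -1, 0, 0],
    ![0, 1, -1, 0], ![1, 0, -1, 0]]
  a := ![![1, 0, 0, 0], ![0, 1, 0, 0], ![0, 0, 1, 0], ![0, 0, 0, 1], ![1, 0, 0, 0],
    ![0, 1, 0, 0], ![1, 0, 0, 0]]
  b := ![![1, 1, 1, 0], ![1, 1, 1, 0], ![1, 1, 1, 0], ![0, 0, 0, 1], ![0, 1, 0, 0],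
    ![0, 0, 1, 0], ![0, 0, 1, 0]]
  l := ![1, 2, 4, 1]
  hsep := by decide
  hl := by decide
  h0 := rfl
  h1 := rfl
  h2 := rfl
  h3 := rfl

end Pool.Agent.H.MP_676d90_ag
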