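import Pool.Agent.H.MP_676d90_ag.CubicForm

namespace Pool.Agent.H.MP_676d90_ag

open MvPolynomial Module

section

variable {Y : Finset (Projectivization ℂ (Fin (3 + 1) → ℂ))}

lemma exists_cubic (h : hilbert (symbolicSquare Y) 3 ≤ 19) :
    ∃ F : MvPolynomial (Fin 4) ℂ, F ≠ 0 ∧ F.IsHomogeneous 3 ∧ F ∈ symbolicSquare Y := by
  have h2 := hilbert_add (symbolicSquare Y) 3
  have h3 : (3 + 3).choose 3 = 20 := by decide
  have h4 : piece (symbolicSquare Y) 3 ≠ ⊥ := by
    intro hbot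
    rw [hbot, finrank_bot] at h2
    omega
  obtain ⟨F, hF, hF0⟩ := Submodule.exists_mem_ne_zero_of_ne_bot h4
  exact ⟨F, fun h => hF0 (Subtype.ext h), F.2, hF⟩

lemma dir_zero_of_mem {F : MvPolynomial (Fin 4) ℂ} (hF : F ∈ symbolicSquare Y)
    {P : Projectivization ℂ (Fin (3 + 1) → ℂ)} (hP : P ∈ Y) {w : Fin 4 → ℂ}
    (hw : w ∈ P.submodule) (u : Fin 4 → ℂ) :
    aeval w (∑ i, C (u i) * pderiv i F) = 0 := by
  have h1 := X_sq_dvd_dirHom (mem_symbolicSquare.1 hF P hP) hw u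
  rw [Polynomial.X_pow_dvd_iff] at h1
  have h2 := h1 1 (by norm_num)
  rwa [coeff_one_dirHom (n := 3)] at h2

lemma zero_of_mem {F : MvPolynomial (Fin 4) ℂ} (hF : F ∈ symbolicSquare Y)
    {P : Projectivization ℂ (Fin (3 + 1) → ℂ)} (hP : P ∈ Y) {w : Fin 4 → ℂ}
    (hw : w ∈ P.submodule) : aeval w F = 0 := by
  have h1 := X_sq_dvd_dirHom (mem_symbolicSquare.1 hF P hP) hw w
  rw [Polynomial.X_pow_dvd_iff] at h1
  have h2 := h1 0 (by norm_num)
  rwa [Polynomial.coeff_zero_eq_eval_zero, dirHom_eval_zero] at h2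

lemma piece_one (hgen : GenericSupport Y) (hc : Y.card = 7) :
    finrank ℂ (piece (pointsIdeal Y) 1) = 0 := by
  have h1 := hilbert_add (pointsIdeal Y) 1
  rw [hgen 1, hc] at h1
  have h3 : (3 + 1).choose 3 = 4 := by decide
  have h4 : (3 + 1).choose 1 = 4 := by decide
  rw [h3, h4] at h1
  omega

lemma piece_two (hgen : GenericSupport Y) (hc : Y.card = 7) :
    finrank ℂ (piece (pointsIdeal Y) 2) = 3 := by
  have h1 := hilbert_add (pointsIdeal Y) 2
  rw [hgen 2, hc] at h1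
  have h3 : (3 + 2).choose 3 = 10 := by decide
  have h4 : (3 + 2).choose 2 = 10 := by decide
  rw [h3, h4] at h1
  omega

lemma rep_mem (P : Projectivization ℂ (Fin (3 + 1) → ℂ)) : P.rep ∈ P.submodule := by
  rw [Projectivization.submodule_eq]
  exact Submodule.mem_span_singleton_self _

/-- no nonzero linear form vanishes on `Y` -/
lemma span_reps (hgen : GenericSupport Y) (hc : Y.card = 7) :
    ⊤ ≤ Submodule.span ℂ {w : Fin 4 → ℂ | ∃ P ∈ Y, w ∈ P.submodule} := by
  by_contra hcon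
  have hlt : Submodule.span ℂ {w : Fin 4 → ℂ | ∃ P ∈ Y, w ∈ P.submodule} < ⊤ :=
    lt_top_iff_ne_top.2 fun h => hcon (le_of_eq h.symm)
  obtain ⟨f, hf0, hf⟩ := Submodule.exists_le_ker_of_lt_top _ hlt
  have h1 : 1 ≤ finrank ℂ (piece (pointsIdeal Y) 1) := by
    refine le_finrank_piece (M := ℂ) (finrank_self ℂ)
      (LinearMap.toSpanSingleton ℂ _ (lin (n := 3) f)) ?_ ?_ ?_
    · intro c
      exact Submodule.smul_mem (homogeneousSubmodule (Fin 4) ℂ 1) c (isHomogeneous_lin f)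
    · intro c
      refine Submodule.smul_mem ((pointsIdeal Y).restrictScalars ℂ) c ?_
      change lin (n := 3) f ∈ pointsIdeal Y
      rw [mem_pointsIdeal]
      intro P hP
      rw [mem_pointIdeal_of_homog (isHomogeneous_lin f) P (rep_mem P)
        (Projectivization.rep_nonzero _), aeval_lin]
      have : P.rep ∈ LinearMap.ker f := hf (Submodule.subset_span ⟨P, hP, rep_mem P⟩)
      exact this
    · intro c hc0
      by_contra hc1
      apply hf0
      ext i
      rw [LinearMap.toSpanSingleton_apply] at hc0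
      have h2 : lin (n := 3) f = 0 := (smul_eq_zero.1 hc0).resolve_left hc1
      have h3 := aeval_lin (n := 3) f (Pi.single i 1)
      rw [h2, map_zero] at h3
      simpa using h3.symm
  rw [piece_one hgen hc] at h1
  omega

/-- a singular cubic is a cone -/
lemma exists_vertex (hgen : GenericSupport Y) (hc : Y.card = 7) {F : MvPolynomial (Fin 4) ℂ}
    (hF : F.IsHomogeneous 3) (hmem : F ∈ symbolicSquare Y) :
    ∃ v : Fin 4 → ℂ, v ≠ 0 ∧ ∑ i, C (v i) * pderiv i F = 0 := by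
  by_contra hcon
  push Not at hcon
  let Φ : (Fin 4 → ℂ) →ₗ[ℂ] MvPolynomial (Fin 4) ℂ :=
    ∑ k : Fin 4, (LinearMap.proj k).smulRight (pderiv k F)
  have hΦ : ∀ c, Φ c = ∑ k, C (c k) * pderiv k F := by
    intro c
    simp [Φ, LinearMap.sum_apply, smul_eq_C_mul]
  have hh : ∀ c, (Φ c).IsHomogeneous 2 := by
    intro c
    rw [hΦ]
    refine MvPolynomial.IsHomogeneous.sum _ _ _ fun i _ => ?_
    have := (MvPolynomial.isHomogeneous_C (Fin 4) (c i)).mul (hF.pderiv (i := i))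
    rwa [zero_add] at this
  have h1 : 4 ≤ finrank ℂ (piece (pointsIdeal Y) 2) := by
    refine le_finrank_piece (M := Fin 4 → ℂ) ?_ Φ hh ?_ ?_
    · rw [finrank_fintype_fun_eq_card, Fintype.card_fin]
    · intro c
      rw [mem_pointsIdeal]
      intro P hP
      rw [mem_pointIdeal_of_homog (hh c) P (rep_mem P) (Projectivization.rep_nonzero _), hΦ]
      exact dir_zero_of_mem hmem hP (rep_mem P) c
    · intro c hc0
      by_contra hc1
      rw [hΦ] at hc0
      exact hcon c hc1 hc0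
  rw [piece_two hgen hc] at h1
  omega

end

section

variable (b : Basis (Fin 4) ℂ (Fin 4 → ℂ))

lemma aeval_pderiv_sub (F : MvPolynomial (Fin 4) ℂ) (x : Fin 4 → ℂ) (j : Fin 4) :
    aeval (b.equivFun x) (pderiv j (sub b F)) = aeval x (∑ i, C (b j i) * pderiv i F) := by
  have h1 := coeff_one_dirHom (n := 3) (b.equivFun x) (b.equivFun (b j)) (sub b F)
  rw [dirHom_sub, coeff_one_dirHom (n := 3)] at h1
  rw [h1]
  congr 1
  rw [Finset.sum_eq_single j]
  · rw [Basis.equivFun_self, if_pos rfl, C_1, one_mul]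
  · intro i _ hi
    rw [Basis.equivFun_self, if_neg (Ne.symm hi), C_0, zero_mul]
  · simp

end

/-- the structure of seven points with a singular cubic -/
lemma structure_one {Y : Finset (Projectivization ℂ (Fin (3 + 1) → ℂ))} (hgen : GenericSupport Y)
    (hc : Y.card = 7) (h3 : hilbert (symbolicSquare Y) 3 ≤ 19) :
    ∃ b : Basis (Fin 4) ℂ (Fin 4 → ℂ), (∀ i, i ≠ 0 → ∃ P ∈ Y, b i ∈ P.submodule) ∧
      ∀ P ∈ Y, ∀ w ∈ P.submodule, b.equivFun w 1 * b.equivFun w 2 = 0 ∧
        b.equivFun w 1 * b.equivFun w 3 = 0 ∧ b.equivFun w 2 * b.equivFun w 3 = 0 := by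
  obtain ⟨F, hF0, hF, hmem⟩ := exists_cubic h3
  obtain ⟨v, hv0, hv⟩ := exists_vertex hgen hc hF hmem
  obtain ⟨b, hb0, hb⟩ := exists_basis v hv0 _ (span_reps hgen hc)
  have hb' : ∀ i, i ≠ 0 → ∃ P ∈ Y, b i ∈ P.submodule := hb
  refine ⟨b, hb', ?_⟩
  have e0 : pderiv 0 (sub b F) = 0 := by
    apply MvPolynomial.funext
    intro x
    have := aeval_pderiv_sub b F (b.equivFun.symm x) 0
    rw [hb0, hv, map_zero, LinearEquiv.apply_symm_apply] at this
    rw [map_zero]
    exact this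
  have e1 : ∀ i : Fin 4, i ≠ 0 → ∀ j,
      aeval (Pi.single i 1 : Fin 4 → ℂ) (pderiv j (sub b F)) = 0 := by
    intro i hi j
    obtain ⟨P, hP, hbP⟩ := hb' i hi
    have h1 : b.equivFun (b i) = (Pi.single i 1 : Fin 4 → ℂ) := by
      ext k
      rw [Basis.equivFun_self, Pi.single_apply]
      simp only [eq_comm]
    rw [← h1, aeval_pderiv_sub]
    exact dir_zero_of_mem hmem hP hbP (b j)
  obtain ⟨c, hcG⟩ := cubic_form (isHomogeneous_sub b hF) e0 e1
  have hc0 : c ≠ 0 := by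
    rintro rfl
    apply hF0
    rw [← pull_sub b F, hcG, C_0, zero_mul, map_zero]
  intro P hP w hw
  have key : ∀ j, aeval (b.equivFun w) (pderiv j (C c * (X 1 * X 2 * X 3) :
      MvPolynomial (Fin 4) ℂ)) = 0 := by
    intro j
    rw [← hcG, aeval_pderiv_sub]
    exact dir_zero_of_mem hmem hP hw (b j)
  have k1 := key 1
  have k2 := key 2
  have k3 := key 3
  simp [pderiv_X, hc0] at k1 k2 k3
  refine ⟨?_, ?_, ?_⟩
  · rcases k3 with h | h <;> simp [h]
  · rcases k2 with h | h <;> simp [h]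
  · rcases k1 with h | h <;> simp [h]

end Pool.Agent.H.MP_676d90_ag
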