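import Pool.Agent.H.MP_676d90_ag.Collinear

namespace Pool.Agent.H.MP_676d90_ag

open MvPolynomial Module

variable {n : ℕ}

/-- the index of the variable `X_{j+2}` -/
def idx (n : ℕ) (j : Fin (n - 1)) : Fin (n + 1) := ⟨j + 2, by omega⟩

lemma X_pow_mem_Phi {d N1 N2 : ℕ} (k : Fin (n + 1)) {b : ℕ} (hb : b < N1) :
    (X 0 ^ (d - b) * X k ^ b : MvPolynomial (Fin (n + 1)) ℂ) ∈
      LinearMap.range (Phi d N1 N2 (X 0) (X k) (fun j : Fin (n - 1) => X (idx n j))) := by
  classical
  refine ⟨(Pi.single ⟨b, hb⟩ 1, 0), ?_⟩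
  simp only [Phi, LinearMap.coe_mk, AddHom.coe_mk, Pi.zero_apply, zero_smul,
    Finset.sum_const_zero, add_zero]
  rw [Finset.sum_eq_single ⟨b, hb⟩]
  · rw [Pi.single_eq_same, one_smul]
  · intro c _ hc
    rw [Pi.single_eq_of_ne hc, zero_smul]
  · simp

lemma X_mul_mem_Phi {d N1 N2 : ℕ} (k : Fin (n + 1)) (j : Fin (n - 1)) {b : ℕ} (hb : b < N2) :
    (X (idx n j) * (X 0 ^ (d - 1 - b) * X k ^ b) : MvPolynomial (Fin (n + 1)) ℂ) ∈
      LinearMap.range (Phi d N1 N2 (X 0) (X k) (fun j : Fin (n - 1) => X (idx n j))) := by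
  classical
  refine ⟨(0, Pi.single j (Pi.single ⟨b, hb⟩ 1)), ?_⟩
  simp only [Phi, LinearMap.coe_mk, AddHom.coe_mk, Pi.zero_apply, zero_smul,
    Finset.sum_const_zero, zero_add]
  rw [Finset.sum_eq_single j]
  · rw [Finset.sum_eq_single ⟨b, hb⟩]
    · rw [Pi.single_eq_same, Pi.single_eq_same, one_smul]
    · intro c _ hc
      rw [Pi.single_eq_same, Pi.single_eq_of_ne hc, zero_smul]
    · simp
  · intro c _ hc
    refine Finset.sum_eq_zero fun e _ => ?_
    rw [Pi.single_eq_of_ne hc, Pi.zero_apply, zero_smul]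
  · simp

/-- Modulo `I_Y^{(2)}` every form of degree `d` is of the special shape. -/
lemma span_le_range {r : ℕ} (hn : 1 ≤ n) (k : Fin (n + 1)) (hk : (k : ℕ) = 1) (d : ℕ) :
    Submodule.span ℂ (spanSet n d k) ≤
      LinearMap.range (Phi d (min (d + 1) (2 * r)) (min d r) (X 0) (X k)
        (fun j : Fin (n - 1) => X (idx n j))) ⊔
      (symbolicSquare (cset n r hn)).restrictScalars ℂ := by
  rw [Submodule.span_le]
  rintro w (⟨a, b, hab, rfl⟩ | ⟨a, b, j, hj, hab, rfl⟩)
  · -- forms in two variables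
    have hT : TT (X 0) (X k) (fun k => ((k % r : ℕ) : ℂ)) (2 * r) * 1
        ∈ symbolicSquare (cset n r hn) := by
      rw [mul_one, mem_symbolicSquare]
      intro P hP
      obtain ⟨i, hi, rfl⟩ := (mem_cset hn).1 hP
      rw [TT_two_mul]
      refine Ideal.pow_mem_pow (TT_mem hi k hk _ ?_) 2
      intro j hj
      rw [Nat.mod_eq_of_lt hj]
    have h := binary_reduction (X 0) (X k) (fun k => ((k % r : ℕ) : ℂ)) (2 * r)
      (1 : MvPolynomial (Fin (n + 1)) ℂ) (symbolicSquare (cset n r hn)) hT b a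
    rw [mul_one, hab] at h
    have hle : VV (X 0) (X k) (1 : MvPolynomial (Fin (n + 1)) ℂ) (2 * r) d ≤
        LinearMap.range (Phi d (min (d + 1) (2 * r)) (min d r) (X 0) (X k)
        (fun j : Fin (n - 1) => X (idx n j))) := by
      rw [VV, Submodule.span_le]
      rintro w ⟨b', hb', hb'', rfl⟩
      rw [mul_one]
      exact X_pow_mem_Phi k (by omega)
    have hle' := sup_le_sup_right hle ((symbolicSquare (cset n r hn)).restrictScalars ℂ)
    exact hle' h
  · have hT : TT (X 0) (X k) (fun k => ((k : ℕ) : ℂ)) r * X j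
        ∈ symbolicSquare (cset n r hn) := by
      rw [mem_symbolicSquare]
      intro P hP
      obtain ⟨i, hi, rfl⟩ := (mem_cset hn).1 hP
      rw [pow_two]
      exact Ideal.mul_mem_mul (TT_mem hi k hk _ (fun _ _ => rfl)) (X_mem j hj)
    have h := binary_reduction (X 0) (X k) (fun k => ((k : ℕ) : ℂ)) r
      (X j : MvPolynomial (Fin (n + 1)) ℂ) (symbolicSquare (cset n r hn)) hT b a
    have hle : VV (X 0) (X k) (X j : MvPolynomial (Fin (n + 1)) ℂ) r (a + b) ≤
        LinearMap.range (Phi d (min (d + 1) (2 * r)) (min d r) (X 0) (X k)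
        (fun j : Fin (n - 1) => X (idx n j))) := by
      rw [VV, Submodule.span_le]
      rintro w ⟨b', hb', hb'', rfl⟩
      have hjn := j.2
      have hj2 : (j : ℕ) - 2 < n - 1 := by omega
      have e : j = idx n ⟨(j : ℕ) - 2, hj2⟩ := by
        apply Fin.ext
        simp only [idx]
        omega
      have e2 : a + b - b' = d - 1 - b' := by omega
      have hb2 : b' < min d r := by omega
      have h4 := X_mul_mem_Phi (d := d) (N1 := min (d + 1) (2 * r)) (N2 := min d r) k
        ⟨(j : ℕ) - 2, hj2⟩ hb2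
      rw [← e] at h4
      rw [e2, mul_comm (X 0 ^ (d - 1 - b') * X k ^ b') (X j)]
      exact h4
    have hle' := sup_le_sup_right hle ((symbolicSquare (cset n r hn)).restrictScalars ℂ)
    exact hle' h

theorem upper_bound {r : ℕ} (hn : 1 ≤ n) (d : ℕ) :
    hilbert (symbolicSquare (cset n r hn)) d ≤ min (d + 1) (2 * r) + (n - 1) * min d r := by
  classical
  let k : Fin (n + 1) := ⟨1, by omega⟩
  have hk : (k : ℕ) = 1 := rfl
  let Ψ : ((Fin (min (d + 1) (2 * r)) → ℂ) × (Fin (n - 1) → Fin (min d r) → ℂ)) →ₗ[ℂ]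
      homogeneousSubmodule (Fin (n + 1)) ℂ d :=
    (Phi d _ _ (X 0) (X k) (fun j : Fin (n - 1) => X (idx n j))).codRestrict _
      (Phi_homog (Nat.min_le_left _ _) (Nat.min_le_left _ _) (isHomogeneous_X _ _)
        (isHomogeneous_X _ _) (fun j => isHomogeneous_X _ _))
  have hsurj : Function.Surjective ((Submodule.mkQ ((Submodule.restrictScalars ℂ
      (symbolicSquare (cset n r hn))).comap
        (homogeneousSubmodule (Fin (n + 1)) ℂ d).subtype)).comp Ψ) := by
    intro q
    obtain ⟨⟨F, hF⟩, rfl⟩ := Submodule.mkQ_surjective _ q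
    have hmem : F ∈ LinearMap.range (Phi d (min (d + 1) (2 * r)) (min d r) (X 0) (X k)
        (fun j : Fin (n - 1) => X (idx n j))) ⊔
        (symbolicSquare (cset n r hn)).restrictScalars ℂ := by
      rw [F.as_sum]
      refine Submodule.sum_mem _ fun s hs => ?_
      have hs' : s.degree = d := by
        have := hF (MvPolynomial.mem_support_iff.1 hs)
        rw [← this, Finsupp.degree_eq_weight_one]
        rfl
      have h1 := homog_le_span (r := r) hn k hk d s hs'
      have h2 : Submodule.span ℂ (spanSet n d k) ⊔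
          (symbolicSquare (cset n r hn)).restrictScalars ℂ ≤ _ :=
        sup_le (span_le_range (r := r) hn k hk d) le_sup_right
      have h3 := Submodule.smul_mem _ (coeff s F) (h2 h1)
      rw [smul_monomial, smul_eq_mul, mul_one] at h3
      exact h3
    obtain ⟨u, ⟨p, hp⟩, v, hv, huv⟩ := Submodule.mem_sup.1 hmem
    refine ⟨p, ?_⟩
    rw [LinearMap.comp_apply, Submodule.mkQ_apply, Submodule.mkQ_apply, Submodule.Quotient.eq]
    change Phi d _ _ _ _ _ p - F ∈ symbolicSquare (cset n r hn)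
    rw [hp, ← huv, sub_add_cancel_left]
    exact neg_mem hv
  have h := LinearMap.finrank_le_finrank_of_surjective hsurj
  rw [finrank_prod, finrank_fintype_fun_eq_card, Fintype.card_fin, finrank_pi_fintype] at h
  simp only [finrank_fintype_fun_eq_card, Fintype.card_fin, Finset.sum_const, Finset.card_univ,
    smul_eq_mul] at h
  exact h

end Pool.Agent.H.MP_676d90_ag
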